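import Pool.Agent.Lib.MP_3c7f5c_ag.Hom.Basic

/-!
# Euler characteristic: homotopy equivalences, the empty space, contractible spaces
-/

set_option autoImplicit false

open Set

namespace Pool.Agent.HZ

section
variable {X Y : Type} [TopologicalSpace X] [TopologicalSpace Y]

theorem EC.of_homotopyEquiv (e : ContinuousMap.HomotopyEquiv X Y) {n : ℤ} (h : EC X n) : EC Y n := by
  obtain ⟨⟨fX, N, hN⟩, rfl⟩ := h
  refine ⟨⟨fun k => ?_, N, fun k hk => ?_⟩, ?_⟩
  · have := fX k
    exact Module.Finite.equiv (Hequiv k e)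
  · have := hN k hk
    exact (Hequiv k e).symm.toEquiv.subsingleton
  · unfold eulerChar
    refine finsum_congr fun k => ?_
    rw [(Hequiv k e).finrank_eq]

theorem EC.of_homeo (e : X ≃ₜ Y) {n : ℤ} (h : EC X n) : EC Y n :=
  EC.of_homotopyEquiv e.toHomotopyEquiv h

theorem EC.empty [IsEmpty X] : EC X 0 := by
  have h : ∀ k, Subsingleton (Hl k X) := fun k => Hl_empty k
  refine ⟨⟨fun k => ?_, 0, fun k _ => h k⟩, ?_⟩
  · have := h k
    infer_instance
  · unfold eulerChar
    rw [← finsum_zero (α := ℕ)]
    refine finsum_congr fun k => ?_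
    have := h k
    rw [Module.finrank_zero_of_subsingleton, Nat.cast_zero, mul_zero]

theorem EC.contractible [ContractibleSpace X] : EC X 1 := by
  have h : ∀ k, k ≠ 0 → Subsingleton (Hl k X) := fun k hk => Hl_contractible k hk
  have h0 : Module.finrank ℂ (Hl 0 X) = 1 := Hl_contractible_zero
  refine ⟨⟨fun k => ?_, 1, fun k hk => h k (by omega)⟩, ?_⟩
  · rcases Nat.eq_zero_or_pos k with rfl | hk
    · exact Module.finite_of_finrank_pos (by rw [h0]; exact Nat.one_pos)
    · have := h k hk.ne'
      infer_instance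
  · unfold eulerChar
    rw [finsum_eq_single _ 0]
    · rw [h0]
      norm_num
    · intro k hk
      have := h k hk
      rw [Module.finrank_zero_of_subsingleton, Nat.cast_zero, mul_zero]
end

end Pool.Agent.HZ
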