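import Pool.Agent.Lib.MP_3c7f5c_ag.Hom.MV1

/-!
# Mayer-Vietoris: exactness
-/

open Set

namespace Pool.Agent.HZ

section
variable {X : Type} [TopologicalSpace X]

/-- homologous cycles have the same class -/
theorem cls_eq_of_bd {Y : Type} [TopologicalSpace Y] (k : ℕ) (z w : Zc k Y) (c : SC (k + 1) Y)
    (h : (z : SC k Y) = w + bd k Y c) : cls k Y z = cls k Y w := by
  have h1 : cls k Y (z - w) = 0 := by
    refine (cls_eq_zero_iff k Y _).mpr ⟨c, ?_⟩
    change bd k Y c = (z : SC k Y) - w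
    rw [h]
    abel
  rw [cls_sub] at h1
  exact sub_eq_zero.mp h1

theorem mvδ_spec {A B : Set X} (hA : IsOpen A) (hB : IsOpen B) (hAB : A ∪ B = univ) (k : ℕ)
    (z : Zc (k + 1) X) (c : Zc k (A ∩ B : Set X)) (h : MVRel A B k z c) :
    mvδ hA hB hAB k (cls (k + 1) X z) = cls k _ c :=
  Classical.choose_spec (mv_exists A B hA hB hAB k) z c h

/-- the two ways of including the intersection agree -/
theorem SCmap_inter (A B : Set X) (n : ℕ) (e : SC n (A ∩ B : Set X)) :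
    SCmap n (valC A) (SCmap n (inclC inter_subset_left : C((A ∩ B : Set X), A)) e) =
      SCmap n (valC B) (SCmap n (inclC inter_subset_right : C((A ∩ B : Set X), B)) e) := by
  rw [← SCmap_comp, ← SCmap_comp]
  rfl

theorem Zmap_coe {Y : Type} [TopologicalSpace Y] (k : ℕ) (f : C(X, Y)) (z : Zc k X) :
    ((Zmap k f z : Zc k Y) : SC k Y) = SCmap k f z := rfl

theorem bd_Zc {Y : Type} [TopologicalSpace Y] (k : ℕ) (z : Zc (k + 1) Y) :
    bd k Y z = 0 := z.2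

variable {A B : Set X} (hA : IsOpen A) (hB : IsOpen B) (hAB : A ∪ B = univ) (k : ℕ)

theorem mv_exact_X (a : Hl (k + 1) X) : mvδ hA hB hAB k a = 0 ↔
    ∃ (a₁ : Hl (k + 1) A) (a₂ : Hl (k + 1) B),
      a = Hmap (k + 1) (valC A) a₁ + Hmap (k + 1) (valC B) a₂ := by
  constructor
  · intro h
    obtain ⟨z, rfl⟩ := cls_surjective (k + 1) X a
    obtain ⟨c, hc, hzc⟩ := mvRel_total A B hA hB hAB k z z.2
    rw [mvδ_spec hA hB hAB k z ⟨c, hc⟩ hzc] at h
    obtain ⟨e, he⟩ := (cls_eq_zero_iff k _ _).mp h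
    obtain ⟨a₀, b₀, y, h1, h2, h3⟩ := hzc
    have hz1 : bd k A (a₀ - SCmap (k + 1) (inclC inter_subset_left) e) = 0 := by
      rw [map_sub, bd_SCmap, he, h2, sub_self]
    have hz2 : bd k B (b₀ + SCmap (k + 1) (inclC inter_subset_right) e) = 0 := by
      rw [map_add, bd_SCmap, he, h3, neg_add_cancel]
    set z₁ : Zc (k + 1) A := ⟨_, hz1⟩ with hz₁
    set z₂ : Zc (k + 1) B := ⟨_, hz2⟩ with hz₂
    refine ⟨cls (k + 1) A z₁, cls (k + 1) B z₂, ?_⟩
    rw [Hmap_cls, Hmap_cls, ← map_add]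
    refine cls_eq_of_bd (k + 1) _ _ y ?_
    rw [h1]
    change _ = SCmap (k + 1) (valC A) (a₀ - SCmap (k + 1) (inclC inter_subset_left) e) +
      SCmap (k + 1) (valC B) (b₀ + SCmap (k + 1) (inclC inter_subset_right) e) + _
    rw [map_sub, map_add, SCmap_inter]
    abel
  · rintro ⟨a₁, a₂, rfl⟩
    obtain ⟨z₁, rfl⟩ := cls_surjective (k + 1) A a₁
    obtain ⟨z₂, rfl⟩ := cls_surjective (k + 1) B a₂
    rw [Hmap_cls, Hmap_cls, ← map_add, mvδ_spec hA hB hAB k _ 0, map_zero]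
    refine ⟨z₁, z₂, 0, ?_, ?_, ?_⟩
    · rw [map_zero, add_zero]
      rfl
    · rw [bd_Zc]
      exact (map_zero _).symm
    · rw [bd_Zc]
      change (0 : SC k B) = - SCmap k _ 0
      rw [map_zero, neg_zero]

theorem mv_exact_inter (c : Hl k (A ∩ B : Set X)) :
    (Hmap k (inclC inter_subset_left : C((A ∩ B : Set X), A)) c = 0 ∧
      Hmap k (inclC inter_subset_right : C((A ∩ B : Set X), B)) c = 0) ↔
    ∃ a, mvδ hA hB hAB k a = c := by
  constructor
  · rintro ⟨h1, h2⟩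
    obtain ⟨w, rfl⟩ := cls_surjective k _ c
    rw [Hmap_cls] at h1 h2
    obtain ⟨a, ha⟩ := (cls_eq_zero_iff k _ _).mp h1
    obtain ⟨b, hb⟩ := (cls_eq_zero_iff k _ _).mp h2
    rw [Zmap_coe] at ha hb
    have hz : bd k X (SCmap (k + 1) (valC A) a + SCmap (k + 1) (valC B) (-b)) = 0 := by
      rw [map_add, bd_SCmap, bd_SCmap, map_neg, ha, hb, map_neg, SCmap_inter, add_neg_cancel]
    refine ⟨cls (k + 1) X ⟨_, hz⟩, mvδ_spec hA hB hAB k _ w ⟨a, -b, 0, ?_, ha, ?_⟩⟩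
    · rw [map_zero, add_zero]
    · rw [map_neg, hb]
  · rintro ⟨a, rfl⟩
    obtain ⟨z, rfl⟩ := cls_surjective (k + 1) X a
    obtain ⟨c, hc, hzc⟩ := mvRel_total A B hA hB hAB k z z.2
    rw [mvδ_spec hA hB hAB k z ⟨c, hc⟩ hzc, Hmap_cls, Hmap_cls]
    obtain ⟨a₀, b₀, y, h1, h2, h3⟩ := hzc
    constructor
    · exact (cls_eq_zero_iff k _ _).mpr ⟨a₀, h2⟩
    · refine (cls_eq_zero_iff k _ _).mpr ⟨-b₀, ?_⟩
      rw [map_neg, h3, neg_neg]
      rfl

include hA hB hAB in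
theorem mv_exact_sum (a₁ : Hl k A) (a₂ : Hl k B)
    (h : Hmap k (valC A) a₁ = Hmap k (valC B) a₂) :
    ∃ c : Hl k (A ∩ B : Set X), Hmap k (inclC inter_subset_left) c = a₁ ∧
      Hmap k (inclC inter_subset_right) c = a₂ := by
  obtain ⟨z₁, rfl⟩ := cls_surjective k A a₁
  obtain ⟨z₂, rfl⟩ := cls_surjective k B a₂
  rw [Hmap_cls, Hmap_cls] at h
  have h0 : cls k X (Zmap k (valC A) z₁ - Zmap k (valC B) z₂) = 0 := by
    rw [cls_sub, h, sub_self]
  obtain ⟨y, hy⟩ := (cls_eq_zero_iff k X _).mp h0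
  have hy' : bd k X y = SCmap k (valC A) (z₁ : SC k A) - SCmap k (valC B) (z₂ : SC k B) := hy
  have hsmall : SCmap k (valC A) (z₁ : SC k A) - SCmap k (valC B) (z₂ : SC k B) ∈
      smallC A B k :=
    Submodule.sub_mem _ (SCmap_val_mem_left A B _ _) (SCmap_val_mem_right A B _ _)
  obtain ⟨y', hy'1, hy'2⟩ := small_boundary hA hB hAB k _ hsmall y hy'
  obtain ⟨a, b, hab⟩ := smallC_split (k + 1) hy'1
  rw [hab, map_add, bd_SCmap, bd_SCmap] at hy'2
  have h4 : SCmap k (valC A) ((z₁ : SC k A) - bd k A a) =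
      SCmap k (valC B) ((z₂ : SC k B) + bd k B b) := by
    rw [map_sub, map_add]
    have h5 : SCmap k (valC A) (z₁ : SC k A) = SCmap k (valC A) (bd k A a) +
        SCmap k (valC B) (bd k B b) + SCmap k (valC B) (z₂ : SC k B) := by
      rw [hy'2]
      abel
    rw [h5]
    abel
  obtain ⟨c, hc1, hc2⟩ := split_inter k _ _ h4
  have hcyc : bdd (A ∩ B : Set X) k c = 0 := by
    cases k with
    | zero => rfl
    | succ k =>
      change bd k _ c = 0
      refine SCmap_injective k (inclC inter_subset_left : C((A ∩ B : Set X), A))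
        (inclC_injective _) ?_
      rw [map_zero, ← bd_SCmap, ← hc1, map_sub, bd_bd, sub_zero]
      exact bd_Zc k z₁
  refine ⟨cls k _ ⟨c, hcyc⟩, ?_, ?_⟩
  · rw [Hmap_cls]
    refine cls_eq_of_bd k _ _ (-a) ?_
    change SCmap k (inclC inter_subset_left) c = _
    rw [← hc1, map_neg]
    abel
  · rw [Hmap_cls]
    refine cls_eq_of_bd k _ _ b ?_
    change SCmap k (inclC inter_subset_right) c = _
    rw [← hc2]

include hA hB hAB in
theorem mv_zero_surj (a : Hl 0 X) :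
    ∃ (a₁ : Hl 0 A) (a₂ : Hl 0 B), a = Hmap 0 (valC A) a₁ + Hmap 0 (valC B) a₂ := by
  obtain ⟨z, rfl⟩ := cls_surjective 0 X a
  obtain ⟨a, b, hab⟩ := small_zero hA hB hAB (z : SC 0 X)
  refine ⟨cls 0 A ⟨a, rfl⟩, cls 0 B ⟨b, rfl⟩, ?_⟩
  rw [Hmap_cls, Hmap_cls, ← map_add]
  congr 1
  exact Subtype.ext hab

end

end Pool.Agent.HZ
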