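import Pool.Agent.Lib.MP_3c7f5c_ag.Hom.Basic
import Pool.Agent.Lib.MP_3c7f5c_ag.Hom.MV2

/-!
# Additivity of the Euler characteristic, from the Mayer-Vietoris sequence
-/

set_option autoImplicit false

open Set

namespace Pool.Agent.HZ

section
variable {X : Type} [TopologicalSpace X]

private theorem ec_sum (N : ℕ) (h : ∀ k ≥ N, Subsingleton (Hl k X)) :
    eulerChar X = ∑ k ∈ Finset.range N, (-1) ^ k * (Module.finrank ℂ (Hl k X) : ℤ) := by
  unfold eulerChar
  refine finsum_eq_sum_of_support_subset _ ?_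
  intro k hk
  rw [Finset.coe_range, Set.mem_Iio]
  by_contra hc
  have := h k (not_lt.mp hc)
  apply hk
  beta_reduce
  rw [Module.finrank_zero_of_subsingleton, Nat.cast_zero, mul_zero]

private theorem finite_mid {U V W : Type} [AddCommGroup U] [Module ℂ U] [AddCommGroup V] [Module ℂ V]
    [AddCommGroup W] [Module ℂ W] (f : U →ₗ[ℂ] V) (g : V →ₗ[ℂ] W)
    (h : LinearMap.ker g = LinearMap.range f) [Module.Finite ℂ U] [Module.Finite ℂ W] :
    Module.Finite ℂ V := by
  have h1 : Module.Finite ℂ (LinearMap.range f) := inferInstance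
  have h2 : Module.Finite ℂ (LinearMap.ker g) := by rw [h]; exact h1
  have h3 : Module.Finite ℂ (V ⧸ LinearMap.ker g) :=
    Module.Finite.equiv g.quotKerEquivRange.symm
  exact Module.Finite.of_submodule_quotient (LinearMap.ker g)

private theorem subs_mid {U V W : Type} [AddCommGroup U] [Module ℂ U] [AddCommGroup V] [Module ℂ V]
    [AddCommGroup W] [Module ℂ W] (f : U →ₗ[ℂ] V) (g : V →ₗ[ℂ] W)
    (h : LinearMap.ker g = LinearMap.range f) [Subsingleton U] [Subsingleton W] :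
    Subsingleton V := by
  refine subsingleton_of_forall_eq 0 fun v => ?_
  have h1 : v ∈ LinearMap.ker g := LinearMap.mem_ker.mpr (Subsingleton.elim _ _)
  rw [h] at h1
  obtain ⟨u, rfl⟩ := h1
  rw [Subsingleton.elim u 0, map_zero]

variable (A B : Set X) (k : ℕ)

/-- the map `H_k(A ∩ B) → H_k(A) × H_k(B)` -/
private noncomputable def ff : Hl k (A ∩ B : Set X) →ₗ[ℂ] (Hl k A × Hl k B) :=
  (Hmap k (inclC inter_subset_left)).prod (Hmap k (inclC inter_subset_right))

/-- the map `H_k(A) × H_k(B) → H_k(X)` -/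
private noncomputable def gg : (Hl k A × Hl k B) →ₗ[ℂ] Hl k X :=
  (Hmap k (valC A)).coprod (-Hmap k (valC B))

variable {A B} (hA : IsOpen A) (hB : IsOpen B) (hAB : A ∪ B = univ)

include hA hB hAB in
private theorem ker_gg : LinearMap.ker (gg A B k) = LinearMap.range (ff A B k) := by
  apply le_antisymm
  · rintro ⟨a₁, a₂⟩ h
    have h' : Hmap k (valC A) a₁ + -Hmap k (valC B) a₂ = 0 := h
    obtain ⟨c, h1, h2⟩ := mv_exact_sum hA hB hAB k a₁ a₂ (add_neg_eq_zero.mp h')
    exact ⟨c, Prod.ext h1 h2⟩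
  · rintro _ ⟨c, rfl⟩
    change Hmap k (valC A) (Hmap k (inclC inter_subset_left) c) +
      -Hmap k (valC B) (Hmap k (inclC inter_subset_right) c) = 0
    rw [← Hmap_comp, ← Hmap_comp]
    exact add_neg_eq_zero.mpr rfl

private theorem ker_mvδ : LinearMap.ker (mvδ hA hB hAB k) = LinearMap.range (gg A B (k + 1)) := by
  ext a
  rw [LinearMap.mem_ker, mv_exact_X]
  constructor
  · rintro ⟨a₁, a₂, rfl⟩
    refine ⟨(a₁, -a₂), ?_⟩
    change Hmap (k + 1) (valC A) a₁ + -Hmap (k + 1) (valC B) (-a₂) = _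
    rw [map_neg, neg_neg]
  · rintro ⟨⟨a₁, a₂⟩, rfl⟩
    refine ⟨a₁, -a₂, ?_⟩
    change Hmap (k + 1) (valC A) a₁ + -Hmap (k + 1) (valC B) a₂ = _
    rw [map_neg]

private theorem ker_ff : LinearMap.ker (ff A B k) = LinearMap.range (mvδ hA hB hAB k) := by
  ext c
  rw [LinearMap.mem_ker, LinearMap.mem_range, ← mv_exact_inter]
  exact Prod.ext_iff

include hA hB hAB in
private theorem gg_zero : LinearMap.range (gg A B 0) = ⊤ := by
  rw [LinearMap.range_eq_top]
  intro a
  obtain ⟨a₁, a₂, rfl⟩ := mv_zero_surj hA hB hAB a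
  refine ⟨(a₁, -a₂), ?_⟩
  change Hmap 0 (valC A) a₁ + -Hmap 0 (valC B) (-a₂) = _
  rw [map_neg, neg_neg]

include hA hB hAB in
private theorem dims (hfA : ∀ k, Module.Finite ℂ (Hl k A)) (hfB : ∀ k, Module.Finite ℂ (Hl k B))
    (hfI : ∀ k, Module.Finite ℂ (Hl k (A ∩ B : Set X))) (hfX : ∀ k, Module.Finite ℂ (Hl k X))
    (N : ℕ) (hI : ∀ k ≥ N, Subsingleton (Hl k (A ∩ B : Set X))) :
    ∑ k ∈ Finset.range (N + 1), (-1) ^ k * (Module.finrank ℂ (Hl k X) : ℤ) =
      ∑ k ∈ Finset.range (N + 1), (-1) ^ k * (Module.finrank ℂ (Hl k A) : ℤ) +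
      ∑ k ∈ Finset.range (N + 1), (-1) ^ k * (Module.finrank ℂ (Hl k B) : ℤ) -
      ∑ k ∈ Finset.range (N + 1), (-1) ^ k * (Module.finrank ℂ (Hl k (A ∩ B : Set X)) : ℤ) := by
  set r : ℕ → ℤ := fun k => (Module.finrank ℂ (LinearMap.range (ff A B k)) : ℤ) with hr
  set s : ℕ → ℤ := fun k => (Module.finrank ℂ (LinearMap.range (gg A B k)) : ℤ) with hs
  set t : ℕ → ℤ := fun k => (Module.finrank ℂ (LinearMap.range (mvδ hA hB hAB k)) : ℤ) with ht
  have hS : ∀ k, (Module.finrank ℂ (Hl k A) : ℤ) + Module.finrank ℂ (Hl k B) = s k + r k := by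
    intro k
    have h := LinearMap.finrank_range_add_finrank_ker (gg A B k)
    rw [ker_gg k hA hB hAB, Module.finrank_prod] at h
    simp only [hs, hr]
    exact_mod_cast h.symm
  have hX : ∀ k, (Module.finrank ℂ (Hl (k + 1) X) : ℤ) = t k + s (k + 1) := by
    intro k
    have h := LinearMap.finrank_range_add_finrank_ker (mvδ hA hB hAB k)
    rw [ker_mvδ k hA hB hAB] at h
    simp only [hs, ht]
    exact_mod_cast h.symm
  have hX0 : (Module.finrank ℂ (Hl 0 X) : ℤ) = s 0 := by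
    simp only [hs]
    rw [gg_zero hA hB hAB, finrank_top]
  have hII : ∀ k, (Module.finrank ℂ (Hl k (A ∩ B : Set X)) : ℤ) = r k + t k := by
    intro k
    have h := LinearMap.finrank_range_add_finrank_ker (ff A B k)
    rw [ker_ff k hA hB hAB] at h
    simp only [hr, ht]
    exact_mod_cast h.symm
  have htN : t N = 0 := by
    have := hI N le_rfl
    simp only [ht]
    have h1 : Subsingleton (LinearMap.range (mvδ hA hB hAB N)) := inferInstance
    rw [Module.finrank_zero_of_subsingleton]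
    rfl
  rw [← Finset.sum_add_distrib, ← Finset.sum_sub_distrib]
  have e1 : ∀ k ∈ Finset.range (N + 1), (-1) ^ k * (Module.finrank ℂ (Hl k A) : ℤ) +
      (-1) ^ k * (Module.finrank ℂ (Hl k B) : ℤ) -
      (-1) ^ k * (Module.finrank ℂ (Hl k (A ∩ B : Set X)) : ℤ) = (-1) ^ k * s k - (-1) ^ k * t k := by
    intro k _
    rw [← mul_add, hS, hII]
    ring
  rw [Finset.sum_congr rfl e1, Finset.sum_sub_distrib, Finset.sum_range_succ' (fun k => (-1) ^ k *
    (Module.finrank ℂ (Hl k X) : ℤ)), Finset.sum_range_succ' (fun k => (-1) ^ k * s k),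
    Finset.sum_range_succ (fun k => (-1) ^ k * t k), htN, hX0]
  have e2 : ∀ k ∈ Finset.range N, (-1) ^ (k + 1) * (Module.finrank ℂ (Hl (k + 1) X) : ℤ) =
      (-1) ^ (k + 1) * s (k + 1) - (-1) ^ k * t k := by
    intro k _
    rw [hX]
    ring
  rw [Finset.sum_congr rfl e2, Finset.sum_sub_distrib]
  ring

end

section
variable {X : Type} [TopologicalSpace X]

theorem EC.mv {A B : Set X} (hA : IsOpen A) (hB : IsOpen B) (hAB : A ∪ B = univ) {a b c : ℤ}
    (ha : EC A a) (hb : EC B b) (hc : EC (A ∩ B : Set X) c) : EC X (a + b - c) := by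
  obtain ⟨⟨fA, NA, hNA⟩, rfl⟩ := ha
  obtain ⟨⟨fB, NB, hNB⟩, rfl⟩ := hb
  obtain ⟨⟨fI, NI, hNI⟩, rfl⟩ := hc
  have fX : ∀ k, Module.Finite ℂ (Hl k X) := by
    intro k
    rcases k with _ | k
    · have h := gg_zero hA hB hAB
      exact Module.Finite.of_surjective (gg A B 0) (LinearMap.range_eq_top.mp h)
    · exact finite_mid (gg A B (k + 1)) (mvδ hA hB hAB k) (ker_mvδ k hA hB hAB)
  have hX : ∀ k ≥ NA + NB + NI + 1, Subsingleton (Hl k X) := by
    intro k hk
    rcases k with _ | k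
    · omega
    · have h1 := hNA (k + 1) (by omega)
      have h2 := hNB (k + 1) (by omega)
      have h3 := hNI k (by omega)
      exact subs_mid (gg A B (k + 1)) (mvδ hA hB hAB k) (ker_mvδ k hA hB hAB)
  refine ⟨⟨fX, _, hX⟩, ?_⟩
  rw [ec_sum (NA + NB + NI + 1) hX, ec_sum (NA + NB + NI + 1) fun k hk => hNA k (by omega),
    ec_sum (NA + NB + NI + 1) fun k hk => hNB k (by omega),
    ec_sum (NA + NB + NI + 1) fun k hk => hNI k (by omega)]
  exact dims hA hB hAB fA fB fI fX _ fun k hk => hNI k (by omega)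

theorem EC.mv_left {A B : Set X} (hA : IsOpen A) (hB : IsOpen B) (hAB : A ∪ B = univ) {x b c : ℤ}
    (hx : EC X x) (hb : EC B b) (hc : EC (A ∩ B : Set X) c) : EC A (x + c - b) := by
  obtain ⟨⟨fX, NX, hNX⟩, rfl⟩ := hx
  obtain ⟨⟨fB, NB, hNB⟩, rfl⟩ := hb
  obtain ⟨⟨fI, NI, hNI⟩, rfl⟩ := hc
  have fA : ∀ k, Module.Finite ℂ (Hl k A) := by
    intro k
    have h := finite_mid (ff A B k) (gg A B k) (ker_gg k hA hB hAB)
    exact Module.Finite.of_surjective (LinearMap.fst ℂ (Hl k A) (Hl k B)) Prod.fst_surjective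
  have hNA : ∀ k ≥ NX + NB + NI + 1, Subsingleton (Hl k A) := by
    intro k hk
    have h1 := hNX k (by omega)
    have h3 := hNI k (by omega)
    have h := subs_mid (ff A B k) (gg A B k) (ker_gg k hA hB hAB)
    exact (Prod.fst_surjective (α := Hl k A) (β := Hl k B)).subsingleton
  refine ⟨⟨fA, _, hNA⟩, ?_⟩
  have h := dims hA hB hAB fA fB fI fX (NX + NB + NI) fun k hk => hNI k (by omega)
  rw [ec_sum (NX + NB + NI + 1) hNA, ec_sum (NX + NB + NI + 1) fun k hk => hNX k (by omega),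
    ec_sum (NX + NB + NI + 1) fun k hk => hNB k (by omega),
    ec_sum (NX + NB + NI + 1) fun k hk => hNI k (by omega)]
  linarith
end

end Pool.Agent.HZ
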