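import Pool.Agent.Lib.MP_3c7f5c_ag.HomDefs

/-!
# Functoriality and homotopy invariance of singular homology
-/

set_option autoImplicit false

open Set CategoryTheory CategoryTheory.Limits

namespace Pool.Agent.HZ

section
variable (k : ℕ) {X Y W : Type} [TopologicalSpace X] [TopologicalSpace Y] [TopologicalSpace W]

theorem Hmap_id (a : Hl k X) : Hmap k (ContinuousMap.id X) a = a := by
  unfold Hmap
  rw [TopCat.ofHom_id, CategoryTheory.Functor.map_id]
  rfl

theorem Hmap_comp (g : C(Y, W)) (f : C(X, Y)) (a : Hl k X) :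
    Hmap k (g.comp f) a = Hmap k g (Hmap k f a) := by
  unfold Hmap
  rw [TopCat.ofHom_comp, CategoryTheory.Functor.map_comp]
  rfl

theorem Hmap_homotopic {f g : C(X, Y)} (h : f.Homotopic g) : Hmap k f = Hmap k g := by
  obtain ⟨H⟩ := h
  have h1 := TopCat.Homotopy.congr_homologyMap_singularChainComplexFunctor
    (C := ModuleCat.{0} ℂ) (f := TopCat.ofHom f) (g := TopCat.ofHom g) H (ModuleCat.of ℂ ℂ) k
  exact congrArg ModuleCat.Hom.hom h1

noncomputable def Hequiv (e : ContinuousMap.HomotopyEquiv X Y) : Hl k X ≃ₗ[ℂ] Hl k Y :=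
  LinearEquiv.ofLinearMap (Hmap k e.toFun) (Hmap k e.invFun)
    (by
      ext a
      change Hmap k e.toFun (Hmap k e.invFun a) = a
      rw [← Hmap_comp, Hmap_homotopic k e.right_inv, Hmap_id])
    (by
      ext a
      change Hmap k e.invFun (Hmap k e.toFun a) = a
      rw [← Hmap_comp, Hmap_homotopic k e.left_inv, Hmap_id])

theorem Hl_contractible [ContractibleSpace X] (hk : k ≠ 0) : Subsingleton (Hl k X) := by
  obtain ⟨e⟩ := ContractibleSpace.hequiv_unit X
  have h1 : IsZero (Hl k Unit) :=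
    AlgebraicTopology.isZero_singularHomologyFunctor_of_totallyDisconnectedSpace
      (ModuleCat.{0} ℂ) k (ModuleCat.of ℂ ℂ) (TopCat.of Unit) hk
  have h2 : Subsingleton (Hl k Unit) := ModuleCat.isZero_iff_subsingleton.mp h1
  exact (Hequiv k e).toEquiv.subsingleton

theorem Hl_contractible_zero [ContractibleSpace X] : Module.finrank ℂ (Hl 0 X) = 1 := by
  have h : PathConnectedSpace (TopCat.of X) := inferInstanceAs (PathConnectedSpace X)
  have h1 : IsIso (TopCat.singularHomology₀ε (TopCat.of X) (ModuleCat.of ℂ ℂ)) := inferInstance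
  have e : Hl 0 X ≅ ModuleCat.of ℂ ℂ := asIso (TopCat.singularHomology₀ε (TopCat.of X) (ModuleCat.of ℂ ℂ))
  rw [e.toLinearEquiv.finrank_eq]
  exact Module.finrank_self ℂ

theorem Hl_empty [IsEmpty X] : Subsingleton (Hl k X) := by
  have : TotallyDisconnectedSpace (TopCat.of X) := ⟨fun t _ _ x => (IsEmpty.false (α := X) x).elim⟩
  rcases Nat.eq_zero_or_pos k with rfl | hk
  · have e : Hl 0 X ≅ ∐ fun _ : (TopCat.of X) ↦ ModuleCat.of ℂ ℂ :=
      AlgebraicTopology.singularHomologyFunctorZeroOfTotallyDisconnectedSpace (ModuleCat.{0} ℂ)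
        (ModuleCat.of ℂ ℂ) (TopCat.of X)
    have h1 : IsZero (∐ fun _ : (TopCat.of X) ↦ ModuleCat.of ℂ ℂ) := by
      rw [IsZero.iff_id_eq_zero]
      refine Sigma.hom_ext _ _ fun x => ?_
      exact (IsEmpty.false (α := X) x).elim
    exact ModuleCat.isZero_iff_subsingleton.mp (h1.of_iso e)
  · exact ModuleCat.isZero_iff_subsingleton.mp
      (AlgebraicTopology.isZero_singularHomologyFunctor_of_totallyDisconnectedSpace
      (ModuleCat.{0} ℂ) k (ModuleCat.of ℂ ℂ) (TopCat.of X) hk.ne')
end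

end Pool.Agent.HZ
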