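import Pool.Agent.Lib.MP_3c7f5c_ag.Hom.MV1

/-!
# Naturality of the Mayer-Vietoris boundary
-/

set_option autoImplicit false

open Set

namespace Pool.Agent.HZ

private theorem scmap_comp' (n : ℕ) {X Y W : Type} [TopologicalSpace X] [TopologicalSpace Y]
    [TopologicalSpace W] (g : C(Y, W)) (f : C(X, Y)) (c : SC n X) :
    SCmap n (g.comp f) c = SCmap n g (SCmap n f c) := by
  induction c using Finsupp.induction_linear with
  | zero => simp
  | add c d hc hd => simp only [map_add, hc, hd]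
  | single σ a => rw [SCmap_single, SCmap_single, SCmap_single, ContinuousMap.comp_assoc]

section
variable {X : Type} [TopologicalSpace X]
variable {A B : Set X} (hA : IsOpen A) (hB : IsOpen B) (hAB : A ∪ B = univ) (k : ℕ)

private theorem mvδ_spec (z : Zc (k + 1) X) (c : Zc k (A ∩ B : Set X)) (h : MVRel A B k z c) :
    mvδ hA hB hAB k (cls (k + 1) X z) = cls k _ c :=
  Classical.choose_spec (mv_exists A B hA hB hAB k) z c h

private theorem rel_nat {Y : Type} [TopologicalSpace Y] {A' B' : Set Y} (f : C(X, Y))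
    (fA : MapsTo f A A') (fB : MapsTo f B B') (fI : MapsTo f (A ∩ B) (A' ∩ B'))
    (z : SC (k + 1) X) (c : SC k (A ∩ B : Set X)) (h : MVRel A B k z c) :
    MVRel A' B' k (SCmap (k + 1) f z) (SCmap k (restrC f fI) c) := by
  obtain ⟨a, b, y, hz, ha, hb⟩ := h
  refine ⟨SCmap _ (restrC f fA) a, SCmap _ (restrC f fB) b, SCmap _ f y, ?_, ?_, ?_⟩
  · rw [hz, map_add, map_add, bd_SCmap, ← scmap_comp', ← scmap_comp', ← scmap_comp', ← scmap_comp']
    rfl
  · rw [bd_SCmap, ha, ← scmap_comp', ← scmap_comp']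
    rfl
  · rw [bd_SCmap, hb, map_neg, ← scmap_comp', ← scmap_comp']
    rfl

private theorem rel_swap {Y : Type} [TopologicalSpace Y] {A' B' : Set Y} (f : C(X, Y))
    (fA : MapsTo f A B') (fB : MapsTo f B A') (fI : MapsTo f (A ∩ B) (A' ∩ B'))
    (z : SC (k + 1) X) (c : SC k (A ∩ B : Set X)) (h : MVRel A B k z c) :
    MVRel A' B' k (SCmap (k + 1) f z) (-SCmap k (restrC f fI) c) := by
  obtain ⟨a, b, y, hz, ha, hb⟩ := h
  refine ⟨SCmap _ (restrC f fB) b, SCmap _ (restrC f fA) a, SCmap _ f y, ?_, ?_, ?_⟩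
  · rw [hz, map_add, map_add, bd_SCmap, ← scmap_comp', ← scmap_comp', ← scmap_comp', ← scmap_comp',
      add_comm (SCmap (k + 1) ((valC A').comp _) b)]
    rfl
  · rw [bd_SCmap, hb, map_neg, map_neg, ← scmap_comp', ← scmap_comp']
    rfl
  · rw [bd_SCmap, ha, map_neg, neg_neg, ← scmap_comp', ← scmap_comp']
    rfl

theorem mv_nat {Y : Type} [TopologicalSpace Y] {A' B' : Set Y} (hA' : IsOpen A') (hB' : IsOpen B')
    (hAB' : A' ∪ B' = univ) (f : C(X, Y)) (fA : MapsTo f A A') (fB : MapsTo f B B')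
    (fI : MapsTo f (A ∩ B) (A' ∩ B')) (a : Hl (k + 1) X) :
    mvδ hA' hB' hAB' k (Hmap (k + 1) f a) = Hmap k (restrC f fI) (mvδ hA hB hAB k a) := by
  obtain ⟨z, rfl⟩ := cls_surjective (k + 1) X a
  obtain ⟨c, hc, h⟩ := mvRel_total A B hA hB hAB k z z.2
  have hc' : c ∈ Zc k (A ∩ B : Set X) := hc
  have h1 := mvδ_spec hA hB hAB k z ⟨c, hc'⟩ h
  have h2 := mvδ_spec hA' hB' hAB' k (Zmap (k + 1) f z) (Zmap k (restrC f fI) ⟨c, hc'⟩)
    (rel_nat k f fA fB fI z c h)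
  rw [Hmap_cls, h2, h1, Hmap_cls]

theorem mv_swap {Y : Type} [TopologicalSpace Y] {A' B' : Set Y} (hA' : IsOpen A') (hB' : IsOpen B')
    (hAB' : A' ∪ B' = univ) (f : C(X, Y)) (fA : MapsTo f A B') (fB : MapsTo f B A')
    (fI : MapsTo f (A ∩ B) (A' ∩ B')) (a : Hl (k + 1) X) :
    mvδ hA' hB' hAB' k (Hmap (k + 1) f a) = - Hmap k (restrC f fI) (mvδ hA hB hAB k a) := by
  obtain ⟨z, rfl⟩ := cls_surjective (k + 1) X a
  obtain ⟨c, hc, h⟩ := mvRel_total A B hA hB hAB k z z.2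
  have hc' : c ∈ Zc k (A ∩ B : Set X) := hc
  have h1 := mvδ_spec hA hB hAB k z ⟨c, hc'⟩ h
  have h2 := mvδ_spec hA' hB' hAB' k (Zmap (k + 1) f z) (-Zmap k (restrC f fI) ⟨c, hc'⟩)
    (rel_swap k f fA fB fI z c h)
  rw [Hmap_cls, h2, h1, Hmap_cls]
  have h3 : -Zmap k (restrC f fI) ⟨c, hc'⟩ = (-1 : ℂ) • Zmap k (restrC f fI) ⟨c, hc'⟩ := by
    apply Subtype.ext
    rw [NegMemClass.coe_neg, Submodule.coe_smul, neg_one_smul]
  rw [h3, map_smul, neg_one_smul]
end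

end Pool.Agent.HZ
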