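import Pool.Agent.Lib.MP_3c7f5c_ag.HomDefs

/-!
# Mathlib's singular homology in terms of concrete chains
-/

open Set CategoryTheory Limits Opposite

namespace Pool.Agent.HZ

section Bridge
variable (n : ℕ) (X : Type) [TopologicalSpace X]

/-- the singular simplicial set -/
noncomputable abbrev SSX : SSet.{0} := TopCat.toSSet.obj (TopCat.of X)

/-- the singular chain complex -/
noncomputable abbrev KX : ChainComplex (ModuleCat.{0} ℂ) ℕ :=
  (SSX X).chainComplex (ModuleCat.of ℂ ℂ)

variable {n X} in
/-- a singular simplex as a simplex of the singular simplicial set -/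
noncomputable def smp (σ : Sing n X) : (SSX X).obj (op (SimplexCategory.mk n)) :=
  ((TopCat.of X).toSSetObjEquiv (op (SimplexCategory.mk n))).symm σ

variable {n X} in
/-- a simplex of the singular simplicial set as a singular simplex -/
noncomputable def unsmp (x : (SSX X).obj (op (SimplexCategory.mk n))) : Sing n X :=
  (TopCat.of X).toSSetObjEquiv (op (SimplexCategory.mk n)) x

theorem unsmp_smp (σ : Sing n X) : unsmp (smp σ) = σ := Equiv.apply_symm_apply _ _

theorem smp_unsmp (x : (SSX X).obj (op (SimplexCategory.mk n))) : smp (unsmp x) = x :=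
  Equiv.symm_apply_apply _ _

theorem smp_face (σ : Sing (n + 1) X) (i : Fin (n + 2)) :
    (SSX X).δ i (smp σ) = smp (σ.comp (face n i)) := rfl

theorem smp_comp {Y : Type} [TopologicalSpace Y] (f : C(X, Y)) (σ : Sing n X) :
    (TopCat.toSSet.map (TopCat.ofHom f)).app (op (SimplexCategory.mk n)) (smp σ) =
      smp (f.comp σ) := rfl

variable {n X} in
/-- the generator of the chain module given by a simplex -/
noncomputable def iotaK (x : (SSX X).obj (op (SimplexCategory.mk n))) :
    ModuleCat.of ℂ ℂ ⟶ (KX X).X n := (SSX X).ιChainComplex x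

/-- from concrete chains to Mathlib's chains -/
noncomputable def eK : SC n X →ₗ[ℂ] ((KX X).X n : Type) :=
  Finsupp.lsum ℂ fun σ => (iotaK (smp σ)).hom

theorem eK_single (σ : Sing n X) (a : ℂ) :
    eK n X (Finsupp.single σ a) = (iotaK (smp σ)).hom a := by
  rw [eK, Finsupp.lsum_single]

/-- the inverse of `eK` -/
noncomputable def fK : (KX X).X n ⟶ ModuleCat.of ℂ (SC n X) :=
  ((SSX X).isColimitChainComplexXCofan (ModuleCat.of ℂ ℂ) n).desc
    (Cofan.mk _ fun x => ModuleCat.ofHom (Finsupp.lsingle (unsmp x)))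

theorem iotaK_fK (x : (SSX X).obj (op (SimplexCategory.mk n))) :
    iotaK x ≫ fK n X = ModuleCat.ofHom (Finsupp.lsingle (unsmp x)) :=
  ((SSX X).isColimitChainComplexXCofan (ModuleCat.of ℂ ℂ) n).fac _ (Discrete.mk x)

theorem fK_eK (c : SC n X) : (fK n X).hom (eK n X c) = c := by
  induction c using Finsupp.induction_linear with
  | zero => rw [LinearMap.map_zero, LinearMap.map_zero]
  | add c d hc hd => rw [LinearMap.map_add, LinearMap.map_add, hc, hd]
  | single σ a =>
    rw [eK_single]
    have h := congrArg (fun φ => φ.hom a) (iotaK_fK n X (smp σ))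
    rw [unsmp_smp] at h
    exact h

theorem eK_fK : fK n X ≫ ModuleCat.ofHom (eK n X) = 𝟙 ((KX X).X n) := by
  refine SSet.chainComplex_hom_ext fun x => ?_
  have h := iotaK_fK n X x
  change iotaK x ≫ _ = iotaK x ≫ _
  rw [← Category.assoc, h, Category.comp_id]
  apply ModuleCat.hom_ext
  apply LinearMap.ext
  intro a
  change eK n X (Finsupp.single (unsmp x) a) = (iotaK x).hom a
  rw [eK_single, smp_unsmp]

theorem eK_bijective : Function.Bijective (eK n X) := by
  refine ⟨Function.LeftInverse.injective (fK_eK n X), fun y => ⟨(fK n X).hom y, ?_⟩⟩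
  exact congrArg (fun φ => φ.hom y) (eK_fK n X)

theorem d_eK (c : SC (n + 1) X) :
    ((KX X).d (n + 1) n).hom (eK (n + 1) X c) = eK n X (bd n X c) := by
  induction c using Finsupp.induction_linear with
  | zero => simp only [LinearMap.map_zero]
  | add c d hc hd => simp only [LinearMap.map_add, hc, hd]
  | single σ a =>
    rw [eK_single, bd_single, map_sum]
    have h := congrArg (fun φ => φ.hom a)
      ((SSX X).ιChainComplex_d (R := ModuleCat.of ℂ ℂ) (smp σ))
    change ((KX X).d (n + 1) n).hom ((iotaK (smp σ)).hom a) = _ at h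
    rw [h, ModuleCat.hom_sum, LinearMap.sum_apply]
    refine Finset.sum_congr rfl fun i _ => ?_
    rw [eK_single, ← smp_face, ← smul_eq_mul, LinearMap.map_smul]
    change (ModuleCat.Hom.hom ((-1 : ℤ) ^ (i : ℕ) • iotaK _)) a = _
    rw [ModuleCat.hom_zsmul, LinearMap.smul_apply, ← Int.cast_smul_eq_zsmul ℂ]
    push_cast
    rfl

theorem map_eK {Y : Type} [TopologicalSpace Y] (f : C(X, Y)) (c : SC n X) :
    ((SSet.chainComplexMap (TopCat.toSSet.map (TopCat.ofHom f)) (ModuleCat.of ℂ ℂ)).f n).hom
      (eK n X c) = eK n Y (SCmap n f c) := by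
  induction c using Finsupp.induction_linear with
  | zero => simp only [LinearMap.map_zero]
  | add c d hc hd => simp only [LinearMap.map_add, hc, hd]
  | single σ a =>
    rw [eK_single, SCmap_single, eK_single]
    exact congrArg (fun φ => φ.hom a)
      (SSet.ι_chainComplexMap_f _ _ (TopCat.toSSet.map (TopCat.ofHom f)) (ModuleCat.of ℂ ℂ) (smp σ))

theorem dd_eK (c : SC n X) :
    ((KX X).d n (n - 1)).hom (eK n X c) = eK (n - 1) X (bdd X n c) := by
  cases n with
  | zero =>
    have h : (KX X).d 0 (0 - 1) = 0 := (KX X).shape _ _ (by simp)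
    rw [h]
    simp [bdd]
  | succ n => exact d_eK n X c

theorem next_eq : (ComplexShape.down ℕ).next n = n - 1 := by
  cases n with
  | zero => exact ChainComplex.next_nat_zero
  | succ n => exact ChainComplex.next_nat_succ n

/-- cycles as chains of Mathlib's complex -/
noncomputable def ezK : Zc n X →ₗ[ℂ] ((KX X).X n : Type) := (eK n X).comp (Zc n X).subtype

/-- cycles as chains of Mathlib's complex -/
noncomputable def eZ : ModuleCat.of ℂ (Zc n X) ⟶ (KX X).X n := ModuleCat.ofHom (ezK n X)

theorem zK_aux : eZ n X ≫ (KX X).d n (n - 1) = 0 := by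
  apply ModuleCat.hom_ext
  apply LinearMap.ext
  intro z
  change ((KX X).d n (n - 1)).hom (eK n X z) = 0
  rw [dd_eK]
  have hz : bdd X n (z : SC n X) = 0 := z.2
  rw [hz, LinearMap.map_zero]

/-- cycles as cycles of Mathlib's complex -/
noncomputable def zK : ModuleCat.of ℂ (Zc n X) ⟶ (KX X).cycles n :=
  (KX X).liftCycles (eZ n X) (n - 1) (next_eq n)
    (zK_aux n X)

theorem i_zK (z : Zc n X) : ((KX X).iCycles n).hom ((zK n X).hom z) = eK n X z := by
  have h := (KX X).liftCycles_i (eZ n X) (n - 1)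
    (next_eq n) (zK_aux n X)
  exact congrArg (fun φ => φ.hom z) h

theorem i_injective : Function.Injective ((KX X).iCycles n).hom :=
  (ModuleCat.mono_iff_injective _).1 inferInstance

theorem zK_surjective : Function.Surjective (zK n X).hom := by
  intro c
  obtain ⟨z, hz⟩ := (eK_bijective n X).2 (((KX X).iCycles n).hom c)
  have h0 : z ∈ Zc n X := by
    change bdd X n z = 0
    apply (eK_bijective (n - 1) X).1
    rw [← dd_eK, hz, LinearMap.map_zero]
    exact congrArg (fun φ => φ.hom c) ((KX X).iCycles_d n (n - 1))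
  refine ⟨⟨z, h0⟩, ?_⟩
  apply i_injective
  rw [i_zK, hz]

/-- the class of a cycle -/
noncomputable def clsK : Zc n X →ₗ[ℂ] ((KX X).homology n : Type) :=
  ((KX X).homologyπ n).hom.comp (zK n X).hom

theorem clsK_surjective : Function.Surjective (clsK n X) := by
  have h : Function.Surjective ((KX X).homologyπ n).hom :=
    (ModuleCat.epi_iff_surjective _).1 inferInstance
  exact h.comp (zK_surjective n X)

theorem clsK_eq_zero_iff (z : Zc n X) :
    clsK n X z = 0 ↔ ∃ c : SC (n + 1) X, bd n X c = z := by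
  have hex : (ShortComplex.mk ((KX X).toCycles (n + 1) n) ((KX X).homologyπ n)
      ((KX X).toCycles_comp_homologyπ (n + 1) n)).Exact :=
    ShortComplex.exact_of_g_is_cokernel _ ((KX X).homologyIsCokernel (n + 1) n (by simp))
  rw [ShortComplex.moduleCat_exact_iff] at hex
  constructor
  · intro h
    obtain ⟨x, hx⟩ := hex ((zK n X).hom z) h
    obtain ⟨c, rfl⟩ := (eK_bijective (n + 1) X).2 x
    refine ⟨c, (eK_bijective n X).1 ?_⟩
    rw [← d_eK, ← i_zK]
    have h2 := congrArg (fun φ => φ.hom (eK (n + 1) X c)) ((KX X).toCycles_i (n + 1) n)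
    rw [← h2]
    exact congrArg _ hx
  · rintro ⟨c, hc⟩
    have h3 : ((KX X).toCycles (n + 1) n).hom (eK (n + 1) X c) = (zK n X).hom z := by
      apply i_injective
      rw [i_zK, ← hc, ← d_eK]
      exact congrArg (fun φ => φ.hom (eK (n + 1) X c)) ((KX X).toCycles_i (n + 1) n)
    change ((KX X).homologyπ n).hom ((zK n X).hom z) = 0
    rw [← h3]
    exact congrArg (fun φ => φ.hom (eK (n + 1) X c)) ((KX X).toCycles_comp_homologyπ (n + 1) n)

theorem clsK_nat {Y : Type} [TopologicalSpace Y] (f : C(X, Y)) (z : Zc n X) :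
    (HomologicalComplex.homologyMap (SSet.chainComplexMap (TopCat.toSSet.map (TopCat.ofHom f))
      (ModuleCat.of ℂ ℂ)) n).hom (clsK n X z) = clsK n Y (Zmap n f z) := by
  have h1 := HomologicalComplex.homologyπ_naturality
    (SSet.chainComplexMap (TopCat.toSSet.map (TopCat.ofHom f)) (ModuleCat.of ℂ ℂ)) n
  have h2 := HomologicalComplex.cyclesMap_i
    (SSet.chainComplexMap (TopCat.toSSet.map (TopCat.ofHom f)) (ModuleCat.of ℂ ℂ)) n
  have h3 := congrArg (fun φ => φ.hom ((zK n X).hom z)) h1
  have h4 : (HomologicalComplex.cyclesMap (SSet.chainComplexMap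
      (TopCat.toSSet.map (TopCat.ofHom f)) (ModuleCat.of ℂ ℂ)) n).hom ((zK n X).hom z) =
      (zK n Y).hom (Zmap n f z) := by
    apply i_injective
    rw [i_zK]
    refine (congrArg (fun φ => φ.hom ((zK n X).hom z)) h2).trans ?_
    change ((SSet.chainComplexMap (TopCat.toSSet.map (TopCat.ofHom f)) (ModuleCat.of ℂ ℂ)).f n).hom
      (((KX X).iCycles n).hom ((zK n X).hom z)) = _
    rw [i_zK]
    exact map_eK n X f z
  change _ = ((KX Y).homologyπ n).hom ((zK n Y).hom (Zmap n f z))
  rw [← h4]
  exact h3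

end Bridge

theorem bridge_exists : ∃ cls : ∀ (k : ℕ) (X : Type) [TopologicalSpace X], Zc k X →ₗ[ℂ] Hl k X,
    (∀ (k : ℕ) (X : Type) [TopologicalSpace X], Function.Surjective (cls k X)) ∧
    (∀ (k : ℕ) (X : Type) [TopologicalSpace X] (z : Zc k X),
      cls k X z = 0 ↔ ∃ c : SC (k + 1) X, bd k X c = z) ∧
    (∀ (k : ℕ) (X Y : Type) [TopologicalSpace X] [TopologicalSpace Y] (f : C(X, Y)) (z : Zc k X),
      Hmap k f (cls k X z) = cls k Y (Zmap k f z)) :=
  ⟨fun k X _ => clsK k X, fun k X _ => clsK_surjective k X, fun k X _ z => clsK_eq_zero_iff k X z,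
    fun k X _ _ _ f z => clsK_nat k X f z⟩

noncomputable def cls (k : ℕ) (X : Type) [TopologicalSpace X] : Zc k X →ₗ[ℂ] Hl k X :=
  Classical.choose bridge_exists k X
theorem cls_surjective (k : ℕ) (X : Type) [TopologicalSpace X] : Function.Surjective (cls k X) :=
  (Classical.choose_spec bridge_exists).1 k X
theorem cls_eq_zero_iff (k : ℕ) (X : Type) [TopologicalSpace X] (z : Zc k X) :
    cls k X z = 0 ↔ ∃ c : SC (k + 1) X, bd k X c = z :=
  (Classical.choose_spec bridge_exists).2.1 k X z
theorem Hmap_cls (k : ℕ) {X Y : Type} [TopologicalSpace X] [TopologicalSpace Y] (f : C(X, Y))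
    (z : Zc k X) : Hmap k f (cls k X z) = cls k Y (Zmap k f z) :=
  (Classical.choose_spec bridge_exists).2.2 k X Y f z

end Pool.Agent.HZ
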