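import Pool.Agent.Lib.MP_3c7f5c_ag.HomDefs
import Pool.Agent.Lib.MP_3c7f5c_ag.MonDefs
import Pool.Agent.Lib.MP_3c7f5c_ag.Hom.Bridge

/-!
# The transfer map of a double covering
-/

open Set

namespace Pool.Agent.HZ

/-- the sum of the positive parts of the coordinates -/
noncomputable def posSum (n : ℕ) (x : Fin (n + 1) → ℝ) : ℝ := ∑ j, max (x j) 0

theorem continuous_posSum (n : ℕ) : Continuous (posSum n) := by
  unfold posSum
  fun_prop

/-- a retraction of the ambient space onto the standard simplex -/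
noncomputable def retrDx (n : ℕ) : C(Fin (n + 1) → ℝ, Dx n) where
  toFun x := ⟨fun i => (max (x i) 0 + max 0 (1 - posSum n x) / (n + 1)) / max 1 (posSum n x), by
    have h1 : (0 : ℝ) < max 1 (posSum n x) := lt_of_lt_of_le one_pos (le_max_left _ _)
    constructor
    · intro i
      refine div_nonneg (add_nonneg (le_max_right _ _) (div_nonneg (le_max_left _ _) ?_)) h1.le
      positivity
    · rw [← Finset.sum_div, div_eq_one_iff_eq h1.ne', Finset.sum_add_distrib, Finset.sum_const,
        Finset.card_univ, Fintype.card_fin, nsmul_eq_mul]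
      have h2 : ((n + 1 : ℕ) : ℝ) * (max 0 (1 - posSum n x) / (n + 1)) = max 0 (1 - posSum n x) := by
        push_cast
        field_simp
      rw [h2]
      change posSum n x + max 0 (1 - posSum n x) = max 1 (posSum n x)
      rcases le_total (posSum n x) 1 with h | h
      · rw [max_eq_right (by linarith), max_eq_left h]; ring
      · rw [max_eq_left (by linarith), max_eq_right h]; ring⟩
  continuous_toFun := by
    refine Continuous.subtype_mk ?_ _
    refine continuous_pi fun i => ?_
    refine Continuous.div ?_ (continuous_const.max (continuous_posSum n)) ?_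
    · refine ((continuous_apply i).max continuous_const).add ?_
      exact (continuous_const.max (continuous_const.sub (continuous_posSum n))).div_const _
    · intro x
      exact (lt_of_lt_of_le one_pos (le_max_left _ _)).ne'

theorem retrDx_coe (n : ℕ) (t : Dx n) : retrDx n t = t := by
  have h1 : posSum n t = 1 := by
    unfold posSum
    rw [← t.2.2]
    exact Finset.sum_congr rfl fun i _ => max_eq_left (t.2.1 i)
  apply Subtype.ext
  funext i
  change (max (t.1 i) 0 + max 0 (1 - posSum n t) / (n + 1)) / max 1 (posSum n t) = t.1 i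
  rw [h1, max_eq_left (t.2.1 i)]
  simp

/-- a simplex in `P` has exactly two lifts -/
theorem dcov_lift {P : Type} [TopologicalSpace P] (g : C(P, ℂ)) (hg : ∀ p, g p ≠ 0) (n : ℕ)
    (σ : Sing n P) : ∃ s : C(Dx n, ℂ), ∀ t, s t ^ 2 = g (σ t) := by
  have hsc : IsSimplyConnected (univ : Set (Fin (n + 1) → ℝ)) := by
    have : ContractibleSpace (univ : Set (Fin (n + 1) → ℝ)) :=
      convex_univ.contractibleSpace univ_nonempty
    exact (inferInstance : SimplyConnectedSpace (univ : Set (Fin (n + 1) → ℝ)))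
  obtain ⟨f, hf, hfe⟩ := Complex.exists_continuousOn_pow_eq hsc isOpen_univ
    (g := fun x => g (σ (retrDx n x))) (by fun_prop)
    (by rintro ⟨x, -, hx⟩; exact hg _ hx) two_ne_zero
  refine ⟨⟨fun t => f t, (continuousOn_univ.1 hf).comp continuous_subtype_val⟩, fun t => ?_⟩
  change f t ^ 2 = _
  rw [hfe, retrDx_coe]

section
variable {P : Type} [TopologicalSpace P] {g : C(P, ℂ)}

/-- a lift of a simplex -/
noncomputable def liftS {n : ℕ} (σ : Sing n P) (s : C(Dx n, ℂ)) (hs : ∀ t, s t ^ 2 = g (σ t)) :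
    Sing n (DCov g) where
  toFun t := ⟨(σ t, s t), hs t⟩
  continuous_toFun := Continuous.subtype_mk (σ.continuous.prodMk s.continuous) _

theorem neg_sq_eq {n : ℕ} {σ : Sing n P} {s : C(Dx n, ℂ)} (hs : ∀ t, s t ^ 2 = g (σ t)) :
    ∀ t, (-s) t ^ 2 = g (σ t) := fun t => by
  rw [ContinuousMap.neg_apply, neg_sq, hs]

/-- the sum of the two lifts -/
noncomputable def pairC {n : ℕ} (σ : Sing n P) (s : C(Dx n, ℂ)) (hs : ∀ t, s t ^ 2 = g (σ t)) :
    SC n (DCov g) :=
  Finsupp.single (liftS σ s hs) 1 + Finsupp.single (liftS σ (-s) (neg_sq_eq hs)) 1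

theorem isPreconnected_Dx (n : ℕ) : PreconnectedSpace (Dx n) :=
  isPreconnected_iff_preconnectedSpace.1 (convex_stdSimplex ℝ (Fin (n + 1))).isPreconnected

theorem pairC_eq (hg : ∀ p, g p ≠ 0) {n : ℕ} (σ : Sing n P) (s s' : C(Dx n, ℂ))
    (hs : ∀ t, s t ^ 2 = g (σ t)) (hs' : ∀ t, s' t ^ 2 = g (σ t)) :
    pairC σ s hs = pairC σ s' hs' := by
  have hpc := isPreconnected_Dx n
  have h := (isPreconnected_univ (α := Dx n)).eq_or_eq_neg_of_sq_eq (f := s) (g := s')
    s.continuous.continuousOn s'.continuous.continuousOn (fun t _ => by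
      change s t ^ 2 = s' t ^ 2
      rw [hs, hs']) (fun {t} _ h0 => hg (σ t) (by rw [← hs', h0]; simp))
  rcases h with h | h
  · have : s = s' := ContinuousMap.ext fun t => h (mem_univ t)
    subst this
    rfl
  · have : s = -s' := ContinuousMap.ext fun t => h (mem_univ t)
    subst this
    have h2 : liftS σ (- -s') (neg_sq_eq hs) = liftS σ s' hs' := by
      apply ContinuousMap.ext
      intro t
      apply Subtype.ext
      change (σ t, (- -s') t) = (σ t, s' t)
      rw [neg_neg]
    unfold pairC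
    rw [h2, add_comm]

variable (g) in
/-- the transfer -/
noncomputable def trC (hg : ∀ p, g p ≠ 0) (n : ℕ) : SC n P →ₗ[ℂ] SC n (DCov g) :=
  Finsupp.lsum ℂ fun σ => LinearMap.toSpanSingleton ℂ _
    (pairC σ (Classical.choose (dcov_lift g hg n σ)) (Classical.choose_spec (dcov_lift g hg n σ)))

theorem trC_single (hg : ∀ p, g p ≠ 0) {n : ℕ} (σ : Sing n P) (a : ℂ) (s : C(Dx n, ℂ))
    (hs : ∀ t, s t ^ 2 = g (σ t)) : trC g hg n (Finsupp.single σ a) = a • pairC σ s hs := by
  rw [trC, Finsupp.lsum_single, LinearMap.toSpanSingleton_apply]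
  congr 1
  exact pairC_eq hg σ _ _ _ _

theorem bd_pairC {n : ℕ} (σ : Sing (n + 1) P) (s : C(Dx (n + 1), ℂ))
    (hs : ∀ t, s t ^ 2 = g (σ t)) : bd n _ (pairC σ s hs) =
      ∑ i : Fin (n + 2), (-1 : ℂ) ^ (i : ℕ) •
        pairC (σ.comp (face n i)) (s.comp (face n i)) (fun t => hs (face n i t)) := by
  unfold pairC
  rw [map_add, bd_single, bd_single, ← Finset.sum_add_distrib]
  refine Finset.sum_congr rfl fun i _ => ?_
  rw [smul_add, Finsupp.smul_single, Finsupp.smul_single, smul_eq_mul]
  rfl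

theorem bd_trC (hg : ∀ p, g p ≠ 0) (n : ℕ) (c : SC (n + 1) P) :
    bd n _ (trC g hg (n + 1) c) = trC g hg n (bd n P c) := by
  induction c using Finsupp.induction_linear with
  | zero => simp
  | add c d hc hd => simp only [map_add, hc, hd]
  | single σ a =>
    obtain ⟨s, hs⟩ := dcov_lift g hg (n + 1) σ
    rw [trC_single hg σ a s hs, map_smul, bd_pairC, bd_single, map_sum, Finset.smul_sum]
    refine Finset.sum_congr rfl fun i _ => ?_
    rw [trC_single hg (σ.comp (face n i)) _ (s.comp (face n i)) (fun t => hs (face n i t)),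
      smul_smul, mul_comm]

theorem bdd_trC (hg : ∀ p, g p ≠ 0) (n : ℕ) (c : SC n P) :
    bdd _ n (trC g hg n c) = trC g hg (n - 1) (bdd P n c) := by
  cases n with
  | zero => simp [bdd]
  | succ n => exact bd_trC hg n c

theorem SCmap_proj_trC (hg : ∀ p, g p ≠ 0) (n : ℕ) (c : SC n P) :
    SCmap n (DCov.proj g) (trC g hg n c) = (2 : ℂ) • c := by
  induction c using Finsupp.induction_linear with
  | zero => simp
  | add c d hc hd => simp only [map_add, hc, hd, smul_add]
  | single σ a =>
    obtain ⟨s, hs⟩ := dcov_lift g hg n σ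
    rw [trC_single hg σ a s hs, map_smul, pairC, map_add, SCmap_single, SCmap_single]
    have h1 : ∀ (s : C(Dx n, ℂ)) (hs : ∀ t, s t ^ 2 = g (σ t)),
      (DCov.proj g).comp (liftS σ s hs) = σ := fun s hs => rfl
    rw [h1, h1, ← two_smul ℂ, smul_smul, Finsupp.smul_single, Finsupp.smul_single, smul_eq_mul,
      smul_eq_mul, mul_one, mul_comm]
end

theorem dcov_surjective {P : Type} [TopologicalSpace P] (g : C(P, ℂ)) (hg : ∀ p, g p ≠ 0) (k : ℕ) :
    Function.Surjective (Hmap k (DCov.proj g)) := by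
  intro a
  obtain ⟨z, rfl⟩ := cls_surjective k P a
  have hw : trC g hg k z ∈ Zc k (DCov g) := by
    change bdd _ k _ = 0
    rw [bdd_trC]
    have hz : bdd P k (z : SC k P) = 0 := z.2
    rw [hz, map_zero]
  refine ⟨(1 / 2 : ℂ) • cls k (DCov g) ⟨trC g hg k z, hw⟩, ?_⟩
  rw [LinearMap.map_smul, Hmap_cls, ← LinearMap.map_smul]
  congr 1
  apply Subtype.ext
  change (1 / 2 : ℂ) • SCmap k (DCov.proj g) (trC g hg k z) = z
  rw [SCmap_proj_trC, smul_smul]
  norm_num

end Pool.Agent.HZ
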