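import Pool.Agent.Lib.MP_3c7f5c_ag.HomDefs

/-!
# Homology toolkit, module HZ-Lin1: subdivision of linear chains
-/

open Set

namespace Pool.Agent.HZ

/-- linear maps on chains are determined by the simplices -/
theorem lin1_ext {α M : Type*} [AddCommGroup M] [Module ℂ M] (f g : (α →₀ ℂ) →ₗ[ℂ] M)
    (h : ∀ v, f (Finsupp.single v 1) = g (Finsupp.single v 1)) (c : α →₀ ℂ) : f c = g c := by
  induction c using Finsupp.induction_linear with
  | zero => rw [map_zero, map_zero]
  | add c d hc hd => rw [map_add, map_add, hc, hd]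
  | single v a =>
    have e : Finsupp.single v a = a • Finsupp.single v (1 : ℂ) := by
      rw [Finsupp.smul_single, smul_eq_mul, mul_one]
    rw [e, map_smul, map_smul, h v]

section
variable (n m : ℕ)

theorem lin1_bdL_single (v : Fin (n + 2) → Dx m) (a : ℂ) :
    bdL n m (Finsupp.single v a) =
      ∑ i : Fin (n + 2), Finsupp.single (v ∘ i.succAbove) ((-1 : ℂ) ^ (i : ℕ) * a) := by
  rw [bdL, Finsupp.lsum_single, LinearMap.sum_apply]
  refine Finset.sum_congr rfl fun i _ => ?_
  rw [LinearMap.smul_apply, Finsupp.lsingle_apply, Finsupp.smul_single, smul_eq_mul]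

variable {m} in
theorem lin1_coneL_single (b : Dx m) (v : Fin (n + 1) → Dx m) (a : ℂ) :
    coneL b n (Finsupp.single v a) = Finsupp.single (Fin.cons b v) a := by
  rw [coneL, Finsupp.lmapDomain_apply, Finsupp.mapDomain_single]

theorem lin1_SdL_zero (c : LC 0 m) : SdL m 0 c = c := rfl

theorem lin1_ThL_zero (c : LC 0 m) : ThL m 0 c = 0 := rfl

theorem lin1_SdL_succ (v : Fin (n + 2) → Dx m) :
    SdL m (n + 1) (Finsupp.single v 1) =
      coneL (bary v) n (SdL m n (bdL n m (Finsupp.single v 1))) := by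
  rw [SdL, Finsupp.lsum_single, LinearMap.toSpanSingleton_apply, one_smul]

theorem lin1_ThL_succ (v : Fin (n + 2) → Dx m) :
    ThL m (n + 1) (Finsupp.single v 1) =
      coneL (bary v) (n + 1) (Finsupp.single v 1 - ThL m n (bdL n m (Finsupp.single v 1))) := by
  rw [ThL, Finsupp.lsum_single, LinearMap.toSpanSingleton_apply, one_smul]

variable {m} in
theorem lin1_cons_zero (b : Dx m) (v : Fin (n + 1) → Dx m) :
    (Fin.cons b v : Fin (n + 2) → Dx m) ∘ Fin.succAbove 0 = v := by
  funext k
  rw [Function.comp_apply, Fin.succAbove_zero, Fin.cons_succ]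

variable {m} in
theorem lin1_cons_succ (b : Dx m) (v : Fin (n + 2) → Dx m) (j : Fin (n + 2)) :
    (Fin.cons b v : Fin (n + 3) → Dx m) ∘ Fin.succAbove j.succ =
      (Fin.cons b (v ∘ j.succAbove) : Fin (n + 2) → Dx m) := by
  funext k
  rw [Function.comp_apply]
  refine Fin.cases ?_ (fun k => ?_) k
  · rw [Fin.succ_succAbove_zero, Fin.cons_zero, Fin.cons_zero]
  · rw [Fin.succ_succAbove_succ, Fin.cons_succ, Fin.cons_succ, Function.comp_apply]

variable {m} in
/-- boundary of a cone -/
theorem lin1_bdL_coneL (b : Dx m) (c : LC (n + 1) m) :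
    bdL (n + 1) m (coneL b (n + 1) c) = c - coneL b n (bdL n m c) := by
  refine lin1_ext ((bdL (n + 1) m).comp (coneL b (n + 1)))
    (LinearMap.id - (coneL b n).comp (bdL n m)) (fun v => ?_) c
  rw [LinearMap.comp_apply, LinearMap.sub_apply, LinearMap.comp_apply, LinearMap.id_apply,
    lin1_coneL_single, lin1_bdL_single, lin1_bdL_single, Fin.sum_univ_succ, map_sum,
    lin1_cons_zero, sub_eq_add_neg, ← Finset.sum_neg_distrib]
  congr 1
  · simp
  · refine Finset.sum_congr rfl fun j _ => ?_
    rw [lin1_cons_succ, lin1_coneL_single, ← Finsupp.single_neg]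
    congr 1
    rw [Fin.val_succ, pow_succ]
    ring

/-- the augmentation -/
noncomputable def lin1_aug : LC n m →ₗ[ℂ] ℂ := Finsupp.lsum ℂ fun _ => LinearMap.id

theorem lin1_aug_single (v : Fin (n + 1) → Dx m) (a : ℂ) :
    lin1_aug n m (Finsupp.single v a) = a := by
  rw [lin1_aug, Finsupp.lsum_single, LinearMap.id_apply]

theorem lin1_aug_bdL (c : LC 1 m) : lin1_aug 0 m (bdL 0 m c) = 0 := by
  refine lin1_ext ((lin1_aug 0 m).comp (bdL 0 m)) 0 (fun v => ?_) c
  rw [LinearMap.comp_apply, LinearMap.zero_apply, lin1_bdL_single, map_sum, Fin.sum_univ_two,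
    lin1_aug_single, lin1_aug_single]
  simp

variable {m} in
/-- boundary of a cone over points -/
theorem lin1_bdL_coneL_zero (b : Dx m) (c : LC 0 m) :
    bdL 0 m (coneL b 0 c) = c - lin1_aug 0 m c • Finsupp.single (fun _ => b) 1 := by
  refine lin1_ext ((bdL 0 m).comp (coneL b 0))
    (LinearMap.id - (lin1_aug 0 m).smulRight (Finsupp.single (fun _ => b) 1)) (fun v => ?_) c
  rw [LinearMap.comp_apply, LinearMap.sub_apply, LinearMap.smulRight_apply, LinearMap.id_apply,
    lin1_coneL_single, lin1_bdL_single, Fin.sum_univ_two, lin1_cons_zero, lin1_aug_single,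
    sub_eq_add_neg]
  congr 1
  · simp
  · have e : (Fin.cons b v : Fin 2 → Dx m) ∘ Fin.succAbove 1 = fun _ => b := by
      funext k
      have hk : k = 0 := Subsingleton.elim _ _
      rw [hk, Function.comp_apply]
      have h1 : Fin.succAbove (1 : Fin 2) 0 = 0 := rfl
      rw [h1, Fin.cons_zero]
    rw [e, one_smul, ← Finsupp.single_neg]
    simp

/-- the boundary of a boundary is zero -/
theorem lin1_bdL_bdL (c : LC (n + 2) m) : bdL n m (bdL (n + 1) m c) = 0 := by
  induction n with
  | zero =>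
    refine lin1_ext ((bdL 0 m).comp (bdL 1 m)) 0 (fun v => ?_) c
    rw [LinearMap.comp_apply, LinearMap.zero_apply]
    have e : (Finsupp.single v 1 : LC 2 m) =
        coneL (v 0) 1 (Finsupp.single (Fin.tail v) 1) := by
      rw [lin1_coneL_single, Fin.cons_self_tail]
    rw [e, lin1_bdL_coneL, map_sub, lin1_bdL_coneL_zero, lin1_aug_bdL, zero_smul, sub_zero, sub_self]
  | succ n ih =>
    refine lin1_ext ((bdL (n + 1) m).comp (bdL (n + 2) m)) 0 (fun v => ?_) c
    rw [LinearMap.comp_apply, LinearMap.zero_apply]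
    have e : (Finsupp.single v 1 : LC (n + 3) m) =
        coneL (v 0) (n + 2) (Finsupp.single (Fin.tail v) 1) := by
      rw [lin1_coneL_single, Fin.cons_self_tail]
    rw [e, lin1_bdL_coneL, map_sub, lin1_bdL_coneL, ih, map_zero, sub_zero, sub_self]

theorem bdL_SdL (c : LC (n + 1) m) :
    bdL n m (SdL m (n + 1) c) = SdL m n (bdL n m c) := by
  induction n with
  | zero =>
    refine lin1_ext ((bdL 0 m).comp (SdL m 1)) ((SdL m 0).comp (bdL 0 m)) (fun v => ?_) c
    rw [LinearMap.comp_apply, LinearMap.comp_apply, lin1_SdL_succ, lin1_bdL_coneL_zero,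
      lin1_SdL_zero, lin1_aug_bdL, zero_smul, sub_zero]
  | succ n ih =>
    refine lin1_ext ((bdL (n + 1) m).comp (SdL m (n + 2))) ((SdL m (n + 1)).comp (bdL (n + 1) m))
      (fun v => ?_) c
    rw [LinearMap.comp_apply, LinearMap.comp_apply, lin1_SdL_succ, lin1_bdL_coneL, ih,
      lin1_bdL_bdL, map_zero, map_zero, sub_zero]

theorem bdL_ThL_succ (c : LC (n + 1) m) :
    bdL (n + 1) m (ThL m (n + 1) c) + ThL m n (bdL n m c) = c - SdL m (n + 1) c := by
  induction n with
  | zero =>
    refine lin1_ext ((bdL 1 m).comp (ThL m 1) + (ThL m 0).comp (bdL 0 m))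
      (LinearMap.id - SdL m 1) (fun v => ?_) c
    rw [LinearMap.add_apply, LinearMap.comp_apply, LinearMap.comp_apply, LinearMap.sub_apply,
      LinearMap.id_apply, lin1_ThL_succ, lin1_ThL_zero, lin1_SdL_succ, lin1_SdL_zero,
      lin1_bdL_coneL, sub_zero, add_zero]
  | succ n ih =>
    refine lin1_ext ((bdL (n + 2) m).comp (ThL m (n + 2)) + (ThL m (n + 1)).comp (bdL (n + 1) m))
      (LinearMap.id - SdL m (n + 2)) (fun v => ?_) c
    rw [LinearMap.add_apply, LinearMap.comp_apply, LinearMap.comp_apply, LinearMap.sub_apply,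
      LinearMap.id_apply, lin1_ThL_succ, lin1_SdL_succ, lin1_bdL_coneL]
    have h1 := ih (bdL (n + 1) m (Finsupp.single v 1))
    rw [lin1_bdL_bdL, map_zero, add_zero] at h1
    rw [map_sub (bdL (n + 1) m), h1]
    have e : bdL (n + 1) m (Finsupp.single v 1) - (bdL (n + 1) m (Finsupp.single v 1) -
        SdL m (n + 1) (bdL (n + 1) m (Finsupp.single v 1))) =
        SdL m (n + 1) (bdL (n + 1) m (Finsupp.single v 1)) := by abel
    rw [e]
    abel
end

end Pool.Agent.HZ
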