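import Pool.Agent.Lib.MP_3c7f5c_ag.Hom.Lin1

/-!
# Homology toolkit, module HZ-Lin2: naturality of the subdivision of linear chains
-/

open Set

namespace Pool.Agent.HZ

section
variable (n m : ℕ)

theorem lin2_comb_comb {n m m' : ℕ} (w : Fin (m + 1) → Dx m') (v : Fin (n + 1) → Dx m) (t : Dx n) :
    comb w (comb v t) = comb (comb w ∘ v) t := by
  apply Subtype.ext
  funext j
  change ∑ i, (∑ k, t k * v k i) * w i j = ∑ k, t k * ∑ i, v k i * w i j
  simp only [Finset.sum_mul, Finset.mul_sum]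
  rw [Finset.sum_comm]
  refine Finset.sum_congr rfl fun k _ => Finset.sum_congr rfl fun i _ => ?_
  ring

theorem lin2_comb_bary {n m m' : ℕ} (w : Fin (m + 1) → Dx m') (v : Fin (n + 1) → Dx m) :
    comb w (bary v) = bary (comb w ∘ v) := lin2_comb_comb w v _

theorem lin2_mapL_single {m m' : ℕ} (w : Fin (m + 1) → Dx m') (n : ℕ) (v : Fin (n + 1) → Dx m)
    (a : ℂ) : mapL w n (Finsupp.single v a) = Finsupp.single (comb w ∘ v) a := by
  rw [mapL, Finsupp.lmapDomain_apply, Finsupp.mapDomain_single]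

theorem lin2_mapL_coneL {m m' : ℕ} (w : Fin (m + 1) → Dx m') (n : ℕ) (b : Dx m) (c : LC n m) :
    mapL w (n + 1) (coneL b n c) = coneL (comb w b) n (mapL w n c) := by
  refine lin1_ext ((mapL w (n + 1)).comp (coneL b n)) ((coneL (comb w b) n).comp (mapL w n))
    (fun v => ?_) c
  rw [LinearMap.comp_apply, LinearMap.comp_apply, lin1_coneL_single, lin2_mapL_single,
    lin2_mapL_single, lin1_coneL_single, Fin.comp_cons]

theorem mapL_bdL {m' : ℕ} (w : Fin (m + 1) → Dx m') (c : LC (n + 1) m) :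
    mapL w n (bdL n m c) = bdL n m' (mapL w (n + 1) c) := by
  refine lin1_ext ((mapL w n).comp (bdL n m)) ((bdL n m').comp (mapL w (n + 1))) (fun v => ?_) c
  rw [LinearMap.comp_apply, LinearMap.comp_apply, lin1_bdL_single, lin2_mapL_single,
    lin1_bdL_single, map_sum]
  refine Finset.sum_congr rfl fun i _ => ?_
  rw [lin2_mapL_single]
  rfl

theorem mapL_SdL {m' : ℕ} (w : Fin (m + 1) → Dx m') (c : LC n m) :
    mapL w n (SdL m n c) = SdL m' n (mapL w n c) := by
  induction n with
  | zero => rfl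
  | succ n ih =>
    refine lin1_ext ((mapL w (n + 1)).comp (SdL m (n + 1))) ((SdL m' (n + 1)).comp (mapL w (n + 1)))
      (fun v => ?_) c
    rw [LinearMap.comp_apply, LinearMap.comp_apply, lin1_SdL_succ, lin2_mapL_coneL, ih, mapL_bdL,
      lin2_mapL_single, lin1_SdL_succ, lin2_comb_bary]

theorem mapL_ThL {m' : ℕ} (w : Fin (m + 1) → Dx m') (c : LC n m) :
    mapL w (n + 1) (ThL m n c) = ThL m' n (mapL w n c) := by
  induction n with
  | zero =>
    rw [lin1_ThL_zero, lin1_ThL_zero, map_zero]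
  | succ n ih =>
    refine lin1_ext ((mapL w (n + 2)).comp (ThL m (n + 1))) ((ThL m' (n + 1)).comp (mapL w (n + 1)))
      (fun v => ?_) c
    rw [LinearMap.comp_apply, LinearMap.comp_apply, lin1_ThL_succ, lin2_mapL_coneL, map_sub, ih,
      mapL_bdL, lin2_mapL_single, lin1_ThL_succ, lin2_comb_bary]
end

end Pool.Agent.HZ
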