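import Pool.Agent.Lib.MP_3c7f5c_ag.Hom.Lin2

/-!
# Homology toolkit, module HZ-Sd1: subdivision of singular chains, first properties
-/

open Set

namespace Pool.Agent.HZ

/-- a face of an affine simplex -/
theorem sd1_aff_face {n m : ℕ} (v : Fin (n + 2) → Dx m) (i : Fin (n + 2)) :
    (aff v).comp (face n i) = aff (v ∘ i.succAbove) := by
  apply ContinuousMap.ext
  intro t
  apply Subtype.ext
  funext j
  change ∑ k, (stdSimplex.map i.succAbove t) k * v k j = ∑ l, t l * v (i.succAbove l) j
  rw [stdSimplex.map_coe]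
  simp only [FunOnFinite.linearMap_apply_apply, Finset.sum_mul]
  rw [← Finset.sum_fiberwise Finset.univ i.succAbove fun l => t l * v (i.succAbove l) j]
  refine Finset.sum_congr rfl fun k _ => Finset.sum_congr rfl fun l hl => ?_
  rw [(Finset.mem_filter.mp hl).2]

/-- the affine simplex on the vertices of the standard simplex -/
theorem sd1_aff_vert (n : ℕ) : aff (vert n) = ContinuousMap.id (Dx n) := by
  apply ContinuousMap.ext
  intro t
  apply Subtype.ext
  funext j
  change ∑ i, t i * (Pi.single i (1 : ℝ) : Fin (n + 1) → ℝ) j = t j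
  simp [Pi.single_apply]

theorem sd1_realL_single {n m : ℕ} (v : Fin (n + 1) → Dx m) (a : ℂ) :
    realL n m (Finsupp.single v a) = Finsupp.single (aff v) a := by
  rw [realL, Finsupp.lmapDomain_apply, Finsupp.mapDomain_single]

/-- the realization commutes with the boundary -/
theorem sd1_bd_realL {n m : ℕ} (c : LC (n + 1) m) :
    bd n (Dx m) (realL (n + 1) m c) = realL n m (bdL n m c) := by
  refine lin1_ext ((bd n (Dx m)).comp (realL (n + 1) m)) ((realL n m).comp (bdL n m))
    (fun v => ?_) c
  rw [LinearMap.comp_apply, LinearMap.comp_apply, sd1_realL_single, bd_single, lin1_bdL_single,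
    map_sum]
  refine Finset.sum_congr rfl fun i _ => ?_
  rw [sd1_realL_single, sd1_aff_face]

section
variable (n : ℕ) (X : Type) [TopologicalSpace X] {Y : Type} [TopologicalSpace Y]

variable {X} in
/-- every simplex is the image of the standard simplex -/
theorem sd1_SCmap_vert (σ : Sing n X) (a : ℂ) :
    SCmap n σ (realL n n (Finsupp.single (vert n) a)) = Finsupp.single σ a := by
  rw [sd1_realL_single, sd1_aff_vert, SCmap_single]
  rfl

variable {X} in
theorem sd1_SdX_single (σ : Sing n X) :
    SdX n X (Finsupp.single σ 1) = SCmap n σ (realL n n (SdL n n (Finsupp.single (vert n) 1))) := by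
  rw [SdX, Finsupp.lsum_single, LinearMap.toSpanSingleton_apply, one_smul]

variable {X} in
theorem sd1_ThX_single (σ : Sing n X) :
    ThX n X (Finsupp.single σ 1) =
      SCmap (n + 1) σ (realL (n + 1) n (ThL n n (Finsupp.single (vert n) 1))) := by
  rw [ThX, Finsupp.lsum_single, LinearMap.toSpanSingleton_apply, one_smul]

theorem bd_bd (c : SC (n + 2) X) : bd n X (bd (n + 1) X c) = 0 := by
  refine lin1_ext ((bd n X).comp (bd (n + 1) X)) 0 (fun σ => ?_) c
  rw [LinearMap.comp_apply, LinearMap.zero_apply, ← sd1_SCmap_vert (n + 2) σ 1, bd_SCmap, bd_SCmap,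
    sd1_bd_realL, sd1_bd_realL, lin1_bdL_bdL, map_zero, map_zero]

theorem SdX_zero (c : SC 0 X) : SdX 0 X c = c := by
  refine lin1_ext (SdX 0 X) LinearMap.id (fun σ => ?_) c
  rw [sd1_SdX_single, lin1_SdL_zero, sd1_SCmap_vert, LinearMap.id_apply]

theorem bd_ThX_zero (c : SC 0 X) : bd 0 X (ThX 0 X c) = 0 := by
  refine lin1_ext ((bd 0 X).comp (ThX 0 X)) 0 (fun σ => ?_) c
  rw [LinearMap.comp_apply, LinearMap.zero_apply, sd1_ThX_single, lin1_ThL_zero, map_zero, map_zero,
    map_zero]

variable {X}

theorem SCmap_comp {W : Type} [TopologicalSpace W] (g : C(Y, W)) (f : C(X, Y)) (c : SC n X) :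
    SCmap n (g.comp f) c = SCmap n g (SCmap n f c) := by
  refine lin1_ext (SCmap n (g.comp f)) ((SCmap n g).comp (SCmap n f)) (fun σ => ?_) c
  rw [LinearMap.comp_apply, SCmap_single, SCmap_single, SCmap_single, ContinuousMap.comp_assoc]

theorem SCmap_id (c : SC n X) : SCmap n (ContinuousMap.id X) c = c := by
  refine lin1_ext (SCmap n (ContinuousMap.id X)) LinearMap.id (fun σ => ?_) c
  rw [LinearMap.id_apply, SCmap_single, ContinuousMap.id_comp]

theorem SCmap_SdX (f : C(X, Y)) (c : SC n X) : SCmap n f (SdX n X c) = SdX n Y (SCmap n f c) := by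
  refine lin1_ext ((SCmap n f).comp (SdX n X)) ((SdX n Y).comp (SCmap n f)) (fun σ => ?_) c
  rw [LinearMap.comp_apply, LinearMap.comp_apply, sd1_SdX_single, SCmap_single, sd1_SdX_single,
    SCmap_comp]

theorem SCmap_ThX (f : C(X, Y)) (c : SC n X) :
    SCmap (n + 1) f (ThX n X c) = ThX n Y (SCmap n f c) := by
  refine lin1_ext ((SCmap (n + 1) f).comp (ThX n X)) ((ThX n Y).comp (SCmap n f)) (fun σ => ?_) c
  rw [LinearMap.comp_apply, LinearMap.comp_apply, sd1_ThX_single, SCmap_single, sd1_ThX_single,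
    SCmap_comp]
end

end Pool.Agent.HZ
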