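import Pool.Agent.Lib.MP_3c7f5c_ag.HomDefs

/-!
# Small chains: closure properties and splitting
-/

open Set

namespace Pool.Agent.HZ

section
variable {X : Type} [TopologicalSpace X] {A B : Set X}

private theorem small_push {n m : ℕ} (σ : Sing n X) (hσ : range σ ⊆ A ∨ range σ ⊆ B) (c : SC m (Dx n)) :
    SCmap m σ c ∈ smallC A B m := by
  classical
  unfold smallC
  rw [Finsupp.mem_supported]
  intro τ hτ
  rw [SCmap, Finsupp.lmapDomain_apply] at hτ
  have h1 := Finsupp.mapDomain_support hτ
  rw [Finset.mem_image] at h1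
  obtain ⟨u, -, rfl⟩ := h1
  have h2 : range (σ.comp u) ⊆ range σ := by
    rintro _ ⟨t, rfl⟩
    exact ⟨u t, rfl⟩
  rcases hσ with h | h
  · exact Or.inl (h2.trans h)
  · exact Or.inr (h2.trans h)

private theorem small_map {n m : ℕ} (T : SC n X →ₗ[ℂ] SC m X)
    (hT : ∀ σ : Sing n X, (range σ ⊆ A ∨ range σ ⊆ B) → T (Finsupp.single σ 1) ∈ smallC A B m)
    {c : SC n X} (hc : c ∈ smallC A B n) : T c ∈ smallC A B m := by
  have hc' := hc
  unfold smallC at hc'
  rw [Finsupp.supported_eq_span_single] at hc'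
  refine Submodule.span_induction (p := fun c _ => T c ∈ smallC A B m) ?_ ?_ ?_ ?_ hc'
  · rintro _ ⟨τ, hτ, rfl⟩
    exact hT τ hτ
  · rw [map_zero]
    exact Submodule.zero_mem _
  · intro a b _ _ ha hb
    rw [map_add]
    exact Submodule.add_mem _ ha hb
  · intro r a _ ha
    rw [map_smul]
    exact Submodule.smul_mem _ r ha

theorem smallC_bd (n : ℕ) {c : SC (n + 1) X} (hc : c ∈ smallC A B (n + 1)) :
    bd n X c ∈ smallC A B n := by
  refine small_map (bd n X) (fun σ hσ => ?_) hc
  have h : bd n X (Finsupp.single σ 1) =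
      SCmap n σ (bd n (Dx (n + 1)) (Finsupp.single (ContinuousMap.id _) 1)) := by
    rw [← bd_SCmap, SCmap_single, ContinuousMap.comp_id]
  rw [h]
  exact small_push σ hσ _

theorem smallC_SdX (n : ℕ) {c : SC n X} (hc : c ∈ smallC A B n) : SdX n X c ∈ smallC A B n := by
  refine small_map (SdX n X) (fun σ hσ => ?_) hc
  rw [SdX, Finsupp.lsum_single, LinearMap.toSpanSingleton_apply, one_smul]
  exact small_push σ hσ _

theorem smallC_ThX (n : ℕ) {c : SC n X} (hc : c ∈ smallC A B n) :
    ThX n X c ∈ smallC A B (n + 1) := by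
  refine small_map (ThX n X) (fun σ hσ => ?_) hc
  rw [ThX, Finsupp.lsum_single, LinearMap.toSpanSingleton_apply, one_smul]
  exact small_push σ hσ _

private theorem comp_injective {Y : Type} [TopologicalSpace Y] (n : ℕ) (f : C(X, Y))
    (hf : Function.Injective f) : Function.Injective fun σ : Sing n X => f.comp σ := by
  intro σ τ h
  ext t
  have := congrArg (fun g : C(Dx n, Y) => g t) h
  exact hf this

theorem SCmap_injective {Y : Type} [TopologicalSpace Y] (n : ℕ) (f : C(X, Y))
    (hf : Function.Injective f) : Function.Injective (SCmap n f) := by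
  intro a b h
  rw [SCmap, Finsupp.lmapDomain_apply, Finsupp.lmapDomain_apply] at h
  exact Finsupp.mapDomain_injective (comp_injective n f hf) h

private theorem valC_injective (A : Set X) : Function.Injective (valC A) := Subtype.val_injective

private theorem lift_mem (A : Set X) {n : ℕ} (σ : Sing n X) (h : range σ ⊆ A) :
    σ ∈ range fun τ : Sing n A => (valC A).comp τ :=
  ⟨⟨fun t => ⟨σ t, h (mem_range_self t)⟩, σ.continuous.subtype_mk _⟩, by ext t; rfl⟩

private theorem lift_chain (A : Set X) {n : ℕ} (c : SC n X) (h : ∀ σ ∈ c.support, range σ ⊆ A) :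
    ∃ a : SC n A, SCmap n (valC A) a = c := by
  have hinj := comp_injective n (valC A) (valC_injective A)
  refine ⟨Finsupp.comapDomain (fun σ : Sing n A => (valC A).comp σ) c hinj.injOn, ?_⟩
  rw [SCmap, Finsupp.lmapDomain_apply]
  refine Finsupp.mapDomain_comapDomain _ hinj c ?_
  intro σ hσ
  exact lift_mem A σ (h σ hσ)

theorem smallC_split (n : ℕ) {c : SC n X} (hc : c ∈ smallC A B n) :
    ∃ (a : SC n A) (b : SC n B), c = SCmap n (valC A) a + SCmap n (valC B) b := by
  classical
  unfold smallC at hc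
  rw [Finsupp.mem_supported] at hc
  obtain ⟨a, ha⟩ := lift_chain A (c.filter fun σ => range σ ⊆ A) (by
    intro σ hσ
    rw [Finsupp.support_filter, Finset.mem_filter] at hσ
    exact hσ.2)
  obtain ⟨b, hb⟩ := lift_chain B (c.filter fun σ => ¬ range σ ⊆ A) (by
    intro σ hσ
    rw [Finsupp.support_filter, Finset.mem_filter] at hσ
    rcases hc hσ.1 with h | h
    · exact absurd h hσ.2
    · exact h)
  refine ⟨a, b, ?_⟩
  rw [ha, hb]
  exact (Finsupp.filter_add_filter_not c _).symm

theorem split_inter (n : ℕ) (a : SC n A) (b : SC n B)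
    (h : SCmap n (valC A) a = SCmap n (valC B) b) :
    ∃ c : SC n (A ∩ B : Set X), a = SCmap n (inclC inter_subset_left) c ∧
      b = SCmap n (inclC inter_subset_right) c := by
  classical
  have hA := comp_injective n (valC A) (valC_injective A)
  have hsupp : ∀ σ ∈ (SCmap n (valC A) a).support, range σ ⊆ A ∩ B := by
    intro σ hσ
    have h1 : σ ∈ (SCmap n (valC B) b).support := by rw [← h]; exact hσ
    rw [SCmap, Finsupp.lmapDomain_apply] at hσ h1
    have h2 := Finsupp.mapDomain_support hσ
    have h3 := Finsupp.mapDomain_support h1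
    rw [Finset.mem_image] at h2 h3
    obtain ⟨u, -, hu⟩ := h2
    obtain ⟨w, -, hw⟩ := h3
    rintro _ ⟨t, rfl⟩
    constructor
    · rw [← hu]
      exact (u t).2
    · rw [← hw]
      exact (w t).2
  obtain ⟨c, hc⟩ := lift_chain (A ∩ B) (SCmap n (valC A) a) hsupp
  have hcomp : ∀ {Y Z W : Type} [TopologicalSpace Y] [TopologicalSpace Z] [TopologicalSpace W]
      (g : C(Z, W)) (f : C(Y, Z)) (c : SC n Y), SCmap n g (SCmap n f c) = SCmap n (g.comp f) c := by
    intro Y Z W _ _ _ g f c
    rw [SCmap, SCmap, SCmap, Finsupp.lmapDomain_apply, Finsupp.lmapDomain_apply,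
      Finsupp.lmapDomain_apply, ← Finsupp.mapDomain_comp]
    rfl
  refine ⟨c, ?_, ?_⟩
  · apply SCmap_injective n (valC A) (valC_injective A)
    rw [hcomp, ← hc]
    rfl
  · apply SCmap_injective n (valC B) (valC_injective B)
    rw [hcomp, ← h, ← hc]
    rfl

end

end Pool.Agent.HZ
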