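import Pool.Agent.Lib.MP_3c7f5c_ag.HomDefs

/-!
# Mesh of the barycentric subdivision of linear chains
-/

open Set

namespace Pool.Agent.HZ

theorem comb_apply' {n m : ℕ} (v : Fin (n + 1) → Dx m) (t : Dx n) (j : Fin (m + 1)) :
    (comb v t : Fin (m + 1) → ℝ) j = ∑ i, t i * v i j := rfl

/-- a convex combination of points of a ball is in the ball -/
theorem comb_dist_le {n m : ℕ} (v : Fin (n + 1) → Dx m) (t : Dx n) (p : Fin (m + 1) → ℝ) (r : ℝ)
    (h : ∀ i, dist (v i : Fin (m + 1) → ℝ) p ≤ r) : dist (comb v t : Fin (m + 1) → ℝ) p ≤ r := by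
  have hr : 0 ≤ r := le_trans dist_nonneg (h 0)
  rw [dist_pi_le_iff hr]
  intro j
  rw [Real.dist_eq, comb_apply']
  have h1 : ∑ i, t i * v i j - p j = ∑ i, t i * (v i j - p j) := by
    simp only [mul_sub, Finset.sum_sub_distrib, ← Finset.sum_mul, stdSimplex.sum_eq_one, one_mul]
  rw [h1]
  calc |∑ i, t i * (v i j - p j)| ≤ ∑ i, |t i * (v i j - p j)| := Finset.abs_sum_le_sum_abs _ _
    _ ≤ ∑ i, t i * r := by
        refine Finset.sum_le_sum fun i _ => ?_
        rw [abs_mul, abs_of_nonneg (stdSimplex.zero_le t i)]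
        refine mul_le_mul_of_nonneg_left ?_ (stdSimplex.zero_le t i)
        have := (dist_pi_le_iff hr).1 (h i) j
        rwa [Real.dist_eq] at this
    _ = r := by rw [← Finset.sum_mul, stdSimplex.sum_eq_one, one_mul]

private theorem dist_bary_le {n m : ℕ} (v : Fin (n + 2) → Dx m) (D : ℝ)
    (hv : ∀ i j, dist (v i : Fin (m + 1) → ℝ) (v j) ≤ D) (i : Fin (n + 2)) :
    dist (v i : Fin (m + 1) → ℝ) (bary v) ≤ ((n : ℝ) + 1) / (n + 2) * D := by
  have hD : 0 ≤ D := le_trans dist_nonneg (hv 0 0)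
  have hn : (0 : ℝ) < (n : ℝ) + 2 := by positivity
  have hr : 0 ≤ ((n : ℝ) + 1) / (n + 2) * D := by positivity
  rw [dist_pi_le_iff hr]
  intro k
  rw [Real.dist_eq]
  have hb : (bary v : Fin (m + 1) → ℝ) k = ∑ j, ((n : ℝ) + 2)⁻¹ * v j k := by
    unfold bary
    rw [comb_apply']
    refine Finset.sum_congr rfl fun j _ => ?_
    have : (stdSimplex.barycenter : Dx (n + 1)) j = (Fintype.card (Fin (n + 1 + 1)) : ℝ)⁻¹ :=
      stdSimplex.barycenter_apply j
    rw [this, Fintype.card_fin]
    congr 2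
    push_cast
    ring
  have h1 : (v i : Fin (m + 1) → ℝ) k - (bary v : Fin (m + 1) → ℝ) k =
      ∑ j, ((n : ℝ) + 2)⁻¹ * (v i k - v j k) := by
    rw [hb]
    simp only [mul_sub, Finset.sum_sub_distrib, Finset.sum_const, Finset.card_univ,
      Fintype.card_fin, nsmul_eq_mul]
    have : ((n + 2 : ℕ) : ℝ) * (((n : ℝ) + 2)⁻¹ * (v i) k) = (v i) k := by
      push_cast
      field_simp
    rw [this]
  rw [h1]
  calc |∑ j, ((n : ℝ) + 2)⁻¹ * (v i k - v j k)| ≤ ∑ j, |((n : ℝ) + 2)⁻¹ * (v i k - v j k)| :=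
        Finset.abs_sum_le_sum_abs _ _
    _ ≤ ∑ j, if j = i then 0 else ((n : ℝ) + 2)⁻¹ * D := by
        refine Finset.sum_le_sum fun j _ => ?_
        split_ifs with hji
        · subst hji
          simp
        · rw [abs_mul, abs_of_pos (inv_pos.2 hn)]
          refine mul_le_mul_of_nonneg_left ?_ (inv_pos.2 hn).le
          have := (dist_pi_le_iff hD).1 (hv i j) k
          rwa [Real.dist_eq] at this
    _ = ((n : ℝ) + 1) / (n + 2) * D := by
        rw [Finset.sum_ite, Finset.sum_const_zero, zero_add, Finset.sum_const, nsmul_eq_mul]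
        have : (Finset.univ.filter fun j : Fin (n + 2) => ¬ j = i).card = n + 1 := by
          rw [Finset.filter_not, Finset.card_sdiff_of_subset (Finset.filter_subset _ _)]
          simp [Finset.filter_eq']
        rw [this]
        push_cast
        field_simp

private theorem SdL_mesh_aux (m : ℕ) (n : ℕ) : ∀ (D : ℝ) (v : Fin (n + 1) → Dx m)
    (_ : ∀ i j, dist (v i : Fin (m + 1) → ℝ) (v j) ≤ D) (w : Fin (n + 1) → Dx m)
    (_ : w ∈ (SdL m n (Finsupp.single v 1)).support),
    (∀ (p : Fin (m + 1) → ℝ) (r : ℝ), (∀ i, dist (v i : Fin (m + 1) → ℝ) p ≤ r) →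
      ∀ j, dist (w j : Fin (m + 1) → ℝ) p ≤ r) ∧
    ∀ i j, dist (w i : Fin (m + 1) → ℝ) (w j) ≤ (n : ℝ) / (n + 1) * D := by
  classical
  induction n with
  | zero =>
    intro D v hv w hw
    have hw' : w = v := by
      have h1 : w ∈ (Finsupp.single v (1 : ℂ)).support := hw
      rw [Finsupp.support_single _ one_ne_zero, Finset.mem_singleton] at h1
      exact h1
    subst hw'
    refine ⟨fun p r h j => h j, fun i j => ?_⟩
    have hij : i = j := by
      apply Fin.ext
      omega
    rw [hij]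
    simp
  | succ n ih =>
    intro D v hv w hw
    have hD : 0 ≤ D := le_trans dist_nonneg (hv 0 0)
    have e1 : SdL m (n + 1) (Finsupp.single v 1) =
        coneL (bary v) n (SdL m n (bdL n m (Finsupp.single v 1))) := by
      rw [SdL, Finsupp.lsum_single, LinearMap.toSpanSingleton_apply, one_smul]
    rw [e1, coneL, Finsupp.lmapDomain_apply] at hw
    have h2 := Finsupp.mapDomain_support hw
    rw [Finset.mem_image] at h2
    obtain ⟨w', hw', rfl⟩ := h2
    have e2 : SdL m n (bdL n m (Finsupp.single v 1)) =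
        ∑ i : Fin (n + 2), (-1 : ℂ) ^ (i : ℕ) • SdL m n (Finsupp.single (v ∘ i.succAbove) 1) := by
      rw [bdL, Finsupp.lsum_single, LinearMap.sum_apply, map_sum]
      refine Finset.sum_congr rfl fun i _ => ?_
      rw [LinearMap.smul_apply, map_smul, Finsupp.lsingle_apply]
    rw [e2] at hw'
    have h3 := Finsupp.support_finsetSum hw'
    rw [Finset.mem_biUnion] at h3
    obtain ⟨i, -, hi⟩ := h3
    have h4 := Finsupp.support_smul hi
    obtain ⟨hA, hB⟩ := ih D (v ∘ i.succAbove) (fun a b => hv _ _) w' h4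
    have hbary : ∀ (p : Fin (m + 1) → ℝ) (r : ℝ), (∀ i, dist (v i : Fin (m + 1) → ℝ) p ≤ r) →
        dist (bary v : Fin (m + 1) → ℝ) p ≤ r := fun p r h => comb_dist_le v _ p r h
    have hle : (n : ℝ) / (n + 1) * D ≤ ((n + 1 : ℕ) : ℝ) / ((n + 1 : ℕ) + 1) * D := by
      refine mul_le_mul_of_nonneg_right ?_ hD
      rw [div_le_div_iff₀ (by positivity) (by positivity)]
      push_cast
      nlinarith
    have hcast : ((n : ℝ) + 1) / (n + 2) * D = ((n + 1 : ℕ) : ℝ) / ((n + 1 : ℕ) + 1) * D := by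
      push_cast
      congr 2
      ring
    have hbw : ∀ j, dist (w' j : Fin (m + 1) → ℝ) (bary v) ≤
        ((n + 1 : ℕ) : ℝ) / ((n + 1 : ℕ) + 1) * D := by
      intro j
      rw [← hcast]
      exact hA _ _ (fun i' => dist_bary_le v D hv _) j
    refine ⟨fun p r h j => ?_, fun a b => ?_⟩
    · induction j using Fin.cases with
      | zero => exact hbary p r h
      | succ j => exact hA p r (fun i' => h _) j
    · induction a using Fin.cases with
      | zero =>
        induction b using Fin.cases with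
        | zero =>
          rw [dist_self]
          positivity
        | succ b =>
          rw [dist_comm]
          exact hbw b
      | succ a =>
        induction b using Fin.cases with
        | zero => exact hbw a
        | succ b => exact (hB a b).trans hle

theorem SdL_mesh (n m : ℕ) (D : ℝ) (v : Fin (n + 1) → Dx m)
    (hv : ∀ i j, dist (v i : Fin (m + 1) → ℝ) (v j) ≤ D) (w : Fin (n + 1) → Dx m)
    (hw : w ∈ (SdL m n (Finsupp.single v 1)).support) :
    ∀ i j, dist (w i : Fin (m + 1) → ℝ) (w j) ≤ (n : ℝ) / (n + 1) * D :=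
  (SdL_mesh_aux m n D v hv w hw).2

end Pool.Agent.HZ
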