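import Pool.Agent.Lib.MP_3c7f5c_ag.Hom.Lin2
import Pool.Agent.Lib.MP_3c7f5c_ag.Hom.Sd1
import Pool.Agent.Lib.MP_3c7f5c_ag.Hom.Mesh

/-!
# Iterated subdivisions are small
-/

open Set

namespace Pool.Agent.HZ

section
variable {n : ℕ} {X : Type} [TopologicalSpace X]

/-- simplices `σ ∘ aff w` where the vertices of `w` have mutual distances at most `D` -/
private def fineS (σ : Sing n X) (D : ℝ) : Set (Sing n X) :=
  {τ | ∃ w : Fin (n + 1) → Dx n, τ = σ.comp (aff w) ∧
    ∀ i j, dist (w i : Fin (n + 1) → ℝ) (w j) ≤ D}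

private theorem comb_vert {m : ℕ} (v : Fin (n + 1) → Dx m) : comb v ∘ vert n = v := by
  classical
  funext i
  apply stdSimplex.ext
  funext j
  have h1 : (comb v (vert n i) : Fin (m + 1) → ℝ) j = ∑ l, vert n i l * v l j := rfl
  have h2 : ∀ l, vert n i l = if l = i then 1 else 0 := by
    intro l
    unfold vert
    have : (stdSimplex.vertex i : Dx n) l = (Pi.single i (1 : ℝ) : Fin (n + 1) → ℝ) l := by
      rw [← stdSimplex.vertex_coe]
    rw [this, Pi.single_apply]
  change (comb v (vert n i) : Fin (m + 1) → ℝ) j = _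
  rw [h1]
  simp [h2]

private theorem aff_vert : aff (vert n) = ContinuousMap.id (Dx n) := by
  classical
  ext t j
  have h1 : (aff (vert n) t : Fin (n + 1) → ℝ) j = ∑ l, t l * vert n l j := rfl
  have h2 : ∀ l, vert n l j = if l = j then 1 else 0 := by
    intro l
    unfold vert
    have : (stdSimplex.vertex l : Dx n) j = (Pi.single l (1 : ℝ) : Fin (n + 1) → ℝ) j := by
      rw [← stdSimplex.vertex_coe]
    rw [this, Pi.single_apply]
    simp only [eq_comm]
  have h3 : (aff (vert n) t : Fin (n + 1) → ℝ) j = t j := by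
    rw [h1]
    simp [h2]
  exact h3

private theorem realL_mapL {m m' k : ℕ} (w : Fin (m + 1) → Dx m') (c : LC k m) :
    realL k m' (mapL w k c) = SCmap k (aff w) (realL k m c) := by
  induction c using Finsupp.induction_linear with
  | zero => simp
  | add c d hc hd => simp only [map_add, hc, hd]
  | single v a =>
    rw [mapL, Finsupp.lmapDomain_apply, Finsupp.mapDomain_single, realL, Finsupp.lmapDomain_apply,
      Finsupp.mapDomain_single, realL, Finsupp.lmapDomain_apply, Finsupp.mapDomain_single,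
      SCmap_single]
    congr 1
    ext t j
    have h1 : (aff (comb w ∘ v) t : Fin (m' + 1) → ℝ) j =
        ∑ i, t i * ∑ l, v i l * w l j := rfl
    have h2 : (((aff w).comp (aff v)) t : Fin (m' + 1) → ℝ) j =
        ∑ l, (∑ i, t i * v i l) * w l j := rfl
    have h3 : (aff (comb w ∘ v) t : Fin (m' + 1) → ℝ) j =
        (((aff w).comp (aff v)) t : Fin (m' + 1) → ℝ) j := by
      rw [h1, h2]
      simp only [Finset.mul_sum, Finset.sum_mul]
      rw [Finset.sum_comm]
      exact Finset.sum_congr rfl fun l _ => Finset.sum_congr rfl fun i _ => by ring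
    exact h3

private theorem SdX_single (σ : Sing n X) (w : Fin (n + 1) → Dx n) :
    SdX n X (Finsupp.single (σ.comp (aff w)) 1) =
      SCmap n σ (realL n n (SdL n n (Finsupp.single w 1))) := by
  rw [SdX, Finsupp.lsum_single, LinearMap.toSpanSingleton_apply, one_smul, SCmap_comp,
    ← realL_mapL, mapL_SdL, mapL, Finsupp.lmapDomain_apply, Finsupp.mapDomain_single, comb_vert]

private theorem SdX_fine (σ : Sing n X) (D : ℝ) (c : SC n X)
    (hc : c ∈ Finsupp.supported ℂ ℂ (fineS σ D)) :
    SdX n X c ∈ Finsupp.supported ℂ ℂ (fineS σ ((n : ℝ) / (n + 1) * D)) := by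
  classical
  rw [Finsupp.supported_eq_span_single] at hc
  refine Submodule.span_induction (p := fun c _ => SdX n X c ∈
    Finsupp.supported ℂ ℂ (fineS σ ((n : ℝ) / (n + 1) * D))) ?_ ?_ ?_ ?_ hc
  · rintro _ ⟨τ, ⟨w, rfl, hw⟩, rfl⟩
    dsimp only
    rw [SdX_single]
    rw [Finsupp.mem_supported]
    intro τ hτ
    rw [SCmap, Finsupp.lmapDomain_apply, realL, Finsupp.lmapDomain_apply,
      ← Finsupp.mapDomain_comp] at hτ
    have h1 := Finsupp.mapDomain_support hτ
    rw [Finset.mem_image] at h1
    obtain ⟨u, hu, rfl⟩ := h1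
    exact ⟨u, rfl, SdL_mesh n n D w hw u hu⟩
  · rw [map_zero]
    exact Submodule.zero_mem _
  · intro a b _ _ ha hb
    rw [map_add]
    exact Submodule.add_mem _ ha hb
  · intro r a _ ha
    rw [map_smul]
    exact Submodule.smul_mem _ r ha

private theorem iterate_fine (σ : Sing n X) (s : ℕ) :
    (SdX n X)^[s] (Finsupp.single σ 1) ∈
      Finsupp.supported ℂ ℂ (fineS σ (((n : ℝ) / (n + 1)) ^ s)) := by
  classical
  induction s with
  | zero =>
    rw [Function.iterate_zero, id, pow_zero]
    refine Finsupp.single_mem_supported ℂ _ ⟨vert n, ?_, fun i j => ?_⟩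
    · rw [aff_vert, ContinuousMap.comp_id]
    · rw [dist_pi_le_iff zero_le_one]
      intro l
      rw [Real.dist_eq, abs_le]
      have h1 := stdSimplex.zero_le (vert n i) l
      have h2 := stdSimplex.le_one (vert n i) l
      have h3 := stdSimplex.zero_le (vert n j) l
      have h4 := stdSimplex.le_one (vert n j) l
      constructor <;> linarith
  | succ s ih =>
    rw [Function.iterate_succ_apply']
    have := SdX_fine σ _ _ ih
    rwa [← pow_succ'] at this

private theorem exists_small_single {A B : Set X} (hA : IsOpen A) (hB : IsOpen B)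
    (hAB : A ∪ B = univ) (σ : Sing n X) :
    ∃ r : ℕ, ∀ s ≥ r, (SdX n X)^[s] (Finsupp.single σ 1) ∈ smallC A B n := by
  classical
  obtain ⟨δ, hδ, hL⟩ := lebesgue_number_lemma_of_metric (s := (univ : Set (Dx n)))
    (c := fun b : Bool => σ ⁻¹' (if b then A else B)) isCompact_univ
    (fun b => by
      cases b
      · exact hB.preimage σ.continuous
      · exact hA.preimage σ.continuous)
    (fun t _ => by
      have : σ t ∈ A ∪ B := by rw [hAB]; trivial
      rw [mem_iUnion]
      rcases this with h | h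
      · exact ⟨true, h⟩
      · exact ⟨false, h⟩)
  have hq0 : (0 : ℝ) ≤ (n : ℝ) / (n + 1) := by positivity
  have hq1 : (n : ℝ) / (n + 1) < 1 := by
    rw [div_lt_one (by positivity)]
    linarith
  obtain ⟨r, hr⟩ := exists_pow_lt_of_lt_one hδ hq1
  refine ⟨r, fun s hs => ?_⟩
  have hsδ : ((n : ℝ) / (n + 1)) ^ s < δ := lt_of_le_of_lt
    (pow_le_pow_of_le_one hq0 hq1.le hs) hr
  refine Finsupp.supported_mono ?_ (iterate_fine σ s)
  rintro τ ⟨w, rfl, hw⟩
  obtain ⟨b, hb⟩ := hL (w 0) (mem_univ _)
  have hrange : range (σ.comp (aff w)) ⊆ (if b then A else B) := by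
    rintro _ ⟨t, rfl⟩
    have h1 : dist (comb w t : Fin (n + 1) → ℝ) (w 0) ≤ ((n : ℝ) / (n + 1)) ^ s :=
      comb_dist_le w t _ _ fun i => hw i 0
    have h2 : aff w t ∈ Metric.ball (w 0) δ := by
      rw [Metric.mem_ball]
      exact lt_of_le_of_lt h1 hsδ
    exact hb h2
  cases b
  · exact Or.inr hrange
  · exact Or.inl hrange

end

section
variable {X : Type} [TopologicalSpace X] {A B : Set X}

theorem exists_small (hA : IsOpen A) (hB : IsOpen B) (hAB : A ∪ B = univ) (n : ℕ) (c : SC n X) :
    ∃ r : ℕ, ∀ s ≥ r, (SdX n X)^[s] c ∈ smallC A B n := by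
  classical
  have hadd : ∀ (s : ℕ) (a b : SC n X), (SdX n X)^[s] (a + b) = (SdX n X)^[s] a + (SdX n X)^[s] b := by
    intro s
    induction s with
    | zero => intro a b; rfl
    | succ s ih => intro a b; rw [Function.iterate_succ_apply, map_add, ih]; rfl
  have hsmul : ∀ (s : ℕ) (z : ℂ) (a : SC n X), (SdX n X)^[s] (z • a) = z • (SdX n X)^[s] a := by
    intro s
    induction s with
    | zero => intro z a; rfl
    | succ s ih => intro z a; rw [Function.iterate_succ_apply, map_smul, ih]; rfl
  induction c using Finsupp.induction_linear with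
  | zero =>
    refine ⟨0, fun s _ => ?_⟩
    have h := hsmul s 0 0
    rw [zero_smul, zero_smul] at h
    rw [h]
    exact Submodule.zero_mem _
  | add c d hc hd =>
    obtain ⟨r1, h1⟩ := hc
    obtain ⟨r2, h2⟩ := hd
    refine ⟨max r1 r2, fun s hs => ?_⟩
    rw [hadd]
    exact Submodule.add_mem _ (h1 s ((le_max_left _ _).trans hs)) (h2 s ((le_max_right _ _).trans hs))
  | single σ a =>
    obtain ⟨r, hr⟩ := exists_small_single hA hB hAB σ
    refine ⟨r, fun s hs => ?_⟩
    have : (Finsupp.single σ a : SC n X) = a • Finsupp.single σ 1 := by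
      rw [Finsupp.smul_single, smul_eq_mul, mul_one]
    rw [this, hsmul]
    exact Submodule.smul_mem _ a (hr s hs)

end

end Pool.Agent.HZ
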