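import Pool.Agent.Lib.MP_3c7f5c_ag.Hom.Sd2
import Pool.Agent.Lib.MP_3c7f5c_ag.Hom.Small1
import Pool.Agent.Lib.MP_3c7f5c_ag.Hom.Small2

/-!
# The small chains theorem
-/

open Set

namespace Pool.Agent.HZ

section
variable {X : Type} [TopologicalSpace X] {A B : Set X}

private theorem bd_iterate (n r : ℕ) (c : SC (n + 1) X) :
    bd n X ((SdX (n + 1) X)^[r] c) = (SdX n X)^[r] (bd n X c) := by
  induction r with
  | zero => rfl
  | succ r ih => rw [Function.iterate_succ_apply', Function.iterate_succ_apply', bd_SdX, ih]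

private theorem iterate_zero_map (n r : ℕ) : (SdX n X)^[r] 0 = 0 := by
  induction r with
  | zero => rfl
  | succ r ih => rw [Function.iterate_succ_apply', ih, map_zero]

theorem small_cycle (hA : IsOpen A) (hB : IsOpen B) (hAB : A ∪ B = univ) (n : ℕ) (z : SC (n + 1) X)
    (hz : bd n X z = 0) : ∃ (a : SC (n + 1) A) (b : SC (n + 1) B) (y : SC (n + 2) X),
      z = SCmap _ (valC A) a + SCmap _ (valC B) b + bd (n + 1) X y := by
  have key : ∀ r : ℕ, ∃ y : SC (n + 2) X, z = (SdX (n + 1) X)^[r] z + bd (n + 1) X y := by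
    intro r
    induction r with
    | zero => exact ⟨0, by rw [map_zero, add_zero]; rfl⟩
    | succ r ih =>
      obtain ⟨y, hy⟩ := ih
      have hc : bd n X ((SdX (n + 1) X)^[r] z) = 0 := by
        rw [bd_iterate, hz, iterate_zero_map]
      have h1 := bd_ThX_succ n X ((SdX (n + 1) X)^[r] z)
      rw [hc, map_zero, add_zero] at h1
      refine ⟨y + ThX (n + 1) X ((SdX (n + 1) X)^[r] z), ?_⟩
      rw [map_add, h1, Function.iterate_succ_apply']
      have h2 : SdX (n + 1) X ((SdX (n + 1) X)^[r] z) + (bd (n + 1) X y +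
          ((SdX (n + 1) X)^[r] z - SdX (n + 1) X ((SdX (n + 1) X)^[r] z))) =
          (SdX (n + 1) X)^[r] z + bd (n + 1) X y := by abel
      rw [h2]
      exact hy
  obtain ⟨r, hr⟩ := exists_small hA hB hAB (n + 1) z
  obtain ⟨a, b, hab⟩ := smallC_split (n + 1) (hr r le_rfl)
  obtain ⟨y, hy⟩ := key r
  exact ⟨a, b, y, by rw [← hab]; exact hy⟩

theorem small_zero (hA : IsOpen A) (hB : IsOpen B) (hAB : A ∪ B = univ) (z : SC 0 X) :
    ∃ (a : SC 0 A) (b : SC 0 B), z = SCmap _ (valC A) a + SCmap _ (valC B) b := by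
  obtain ⟨r, hr⟩ := exists_small hA hB hAB 0 z
  obtain ⟨a, b, hab⟩ := smallC_split 0 (hr r le_rfl)
  refine ⟨a, b, ?_⟩
  rw [← hab]
  clear hr hab
  induction r with
  | zero => rfl
  | succ r ih => rw [Function.iterate_succ_apply', SdX_zero]; exact ih

theorem small_boundary (hA : IsOpen A) (hB : IsOpen B) (hAB : A ∪ B = univ) (n : ℕ) (z : SC n X)
    (hz : z ∈ smallC A B n) (y : SC (n + 1) X) (hy : bd n X y = z) :
    ∃ y' ∈ smallC A B (n + 1), bd n X y' = z := by
  obtain ⟨r, hr⟩ := exists_small hA hB hAB (n + 1) y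
  cases n with
  | zero =>
    refine ⟨(SdX 1 X)^[r] y, hr r le_rfl, ?_⟩
    rw [bd_iterate, hy]
    clear hr
    induction r with
    | zero => rfl
    | succ r ih => rw [Function.iterate_succ_apply', SdX_zero]; exact ih
  | succ m =>
    have hz0 : bd m X z = 0 := by rw [← hy]; exact bd_bd m X y
    have hsmall : ∀ s : ℕ, (SdX (m + 1) X)^[s] z ∈ smallC A B (m + 1) := by
      intro s
      induction s with
      | zero => exact hz
      | succ s ih => rw [Function.iterate_succ_apply']; exact smallC_SdX _ ih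
    have key : ∀ s : ℕ, ∃ e ∈ smallC A B (m + 2),
        z = (SdX (m + 1) X)^[s] z + bd (m + 1) X e := by
      intro s
      induction s with
      | zero => exact ⟨0, Submodule.zero_mem _, by rw [map_zero, add_zero]; rfl⟩
      | succ s ih =>
        obtain ⟨e, he, hez⟩ := ih
        have hc : bd m X ((SdX (m + 1) X)^[s] z) = 0 := by
          rw [bd_iterate, hz0, iterate_zero_map]
        have h1 := bd_ThX_succ m X ((SdX (m + 1) X)^[s] z)
        rw [hc, map_zero, add_zero] at h1
        refine ⟨e + ThX (m + 1) X ((SdX (m + 1) X)^[s] z),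
          Submodule.add_mem _ he (smallC_ThX _ (hsmall s)), ?_⟩
        rw [map_add, h1, Function.iterate_succ_apply']
        have h2 : SdX (m + 1) X ((SdX (m + 1) X)^[s] z) + (bd (m + 1) X e +
            ((SdX (m + 1) X)^[s] z - SdX (m + 1) X ((SdX (m + 1) X)^[s] z))) =
            (SdX (m + 1) X)^[s] z + bd (m + 1) X e := by abel
        rw [h2]
        exact hez
    obtain ⟨e, he, hez⟩ := key r
    refine ⟨(SdX (m + 2) X)^[r] y + e, Submodule.add_mem _ (hr r le_rfl) he, ?_⟩
    rw [map_add, bd_iterate, hy]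
    exact hez.symm

end

end Pool.Agent.HZ
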