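import Pool.Agent.Lib.MP_3c7f5c_ag.HomDefs
import Pool.Agent.Lib.MP_3c7f5c_ag.Hom.Bridge
import Pool.Agent.Lib.MP_3c7f5c_ag.Hom.Sd1
import Pool.Agent.Lib.MP_3c7f5c_ag.Hom.Small2
import Pool.Agent.Lib.MP_3c7f5c_ag.Hom.SmallThm

/-!
# Mayer-Vietoris: the boundary map
-/

open Set

namespace Pool.Agent.HZ

section
variable {X : Type} [TopologicalSpace X]

/-- the relation defining the Mayer–Vietoris boundary -/
def MVRel (A B : Set X) (k : ℕ) (z : SC (k + 1) X) (c : SC k (A ∩ B : Set X)) : Prop :=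
  ∃ (a : SC (k + 1) A) (b : SC (k + 1) B) (y : SC (k + 2) X),
    z = SCmap _ (valC A) a + SCmap _ (valC B) b + bd (k + 1) X y ∧
    bd k A a = SCmap k (inclC inter_subset_left) c ∧
    bd k B b = - SCmap k (inclC inter_subset_right) c

theorem inclC_injective {A B : Set X} (h : A ⊆ B) : Function.Injective (inclC h) :=
  Set.inclusion_injective h

theorem valC_injective (A : Set X) : Function.Injective (valC A) := Subtype.val_injective

theorem MVRel.add {A B : Set X} {k : ℕ} {z z' : SC (k + 1) X} {c c' : SC k (A ∩ B : Set X)}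
    (h : MVRel A B k z c) (h' : MVRel A B k z' c') : MVRel A B k (z + z') (c + c') := by
  obtain ⟨a, b, y, h1, h2, h3⟩ := h
  obtain ⟨a', b', y', h1', h2', h3'⟩ := h'
  refine ⟨a + a', b + b', y + y', ?_, ?_, ?_⟩
  · rw [h1, h1', map_add, map_add, map_add]
    abel
  · rw [map_add, h2, h2', map_add]
  · rw [map_add, h3, h3', map_add]
    abel

theorem MVRel.smul {A B : Set X} {k : ℕ} {z : SC (k + 1) X} {c : SC k (A ∩ B : Set X)}
    (h : MVRel A B k z c) (r : ℂ) : MVRel A B k (r • z) (r • c) := by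
  obtain ⟨a, b, y, h1, h2, h3⟩ := h
  refine ⟨r • a, r • b, r • y, ?_, ?_, ?_⟩
  · rw [h1, map_smul, map_smul, map_smul, smul_add, smul_add]
  · rw [map_smul, h2, map_smul]
  · rw [map_smul, h3, map_smul, smul_neg]

theorem MVRel.sub {A B : Set X} {k : ℕ} {z z' : SC (k + 1) X} {c c' : SC k (A ∩ B : Set X)}
    (h : MVRel A B k z c) (h' : MVRel A B k z' c') : MVRel A B k (z - z') (c - c') := by
  have h1 := h.add (h'.smul (-1))
  rw [neg_one_smul, neg_one_smul, ← sub_eq_add_neg, ← sub_eq_add_neg] at h1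
  exact h1

/-- a push-forward from `A` is small -/
theorem SCmap_val_mem_left (A B : Set X) (n : ℕ) (a : SC n A) :
    SCmap n (valC A) a ∈ smallC A B n := by
  induction a using Finsupp.induction_linear with
  | zero => rw [map_zero]; exact Submodule.zero_mem _
  | add c d hc hd => rw [map_add]; exact Submodule.add_mem _ hc hd
  | single σ r =>
    rw [SCmap_single]
    refine Finsupp.single_mem_supported ℂ r (Or.inl ?_)
    rintro _ ⟨t, rfl⟩
    exact (σ t).2

theorem SCmap_val_mem_right (A B : Set X) (n : ℕ) (b : SC n B) :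
    SCmap n (valC B) b ∈ smallC A B n := by
  induction b using Finsupp.induction_linear with
  | zero => rw [map_zero]; exact Submodule.zero_mem _
  | add c d hc hd => rw [map_add]; exact Submodule.add_mem _ hc hd
  | single σ r =>
    rw [SCmap_single]
    refine Finsupp.single_mem_supported ℂ r (Or.inr ?_)
    rintro _ ⟨t, rfl⟩
    exact (σ t).2

/-- the Mayer-Vietoris boundary of a boundary is a boundary -/
theorem mvRel_boundary (A B : Set X) (hA : IsOpen A) (hB : IsOpen B) (hAB : A ∪ B = univ) (k : ℕ)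
    (y₀ : SC (k + 2) X) (c : SC k (A ∩ B : Set X)) (h : MVRel A B k (bd (k + 1) X y₀) c) :
    ∃ e : SC (k + 1) (A ∩ B : Set X), bd k _ e = c := by
  obtain ⟨a, b, y, h1, h2, h3⟩ := h
  have hsmall : SCmap _ (valC A) a + SCmap _ (valC B) b ∈ smallC A B (k + 1) :=
    Submodule.add_mem _ (SCmap_val_mem_left A B _ a) (SCmap_val_mem_right A B _ b)
  have hy : bd (k + 1) X (y₀ - y) = SCmap _ (valC A) a + SCmap _ (valC B) b := by
    rw [map_sub, h1]
    abel
  obtain ⟨y', hy', hy'2⟩ := small_boundary hA hB hAB (k + 1) _ hsmall (y₀ - y) hy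
  obtain ⟨a', b', hab'⟩ := smallC_split (k + 2) hy'
  rw [hab', map_add, bd_SCmap, bd_SCmap] at hy'2
  have h4 : SCmap (k + 1) (valC A) (a - bd (k + 1) A a') =
      SCmap (k + 1) (valC B) (bd (k + 1) B b' - b) := by
    rw [map_sub, map_sub]
    have h5 : SCmap (k + 1) (valC A) a = SCmap (k + 1) (valC A) (bd (k + 1) A a') +
        SCmap (k + 1) (valC B) (bd (k + 1) B b') - SCmap (k + 1) (valC B) b := by
      rw [hy'2]
      abel
    rw [h5]
    abel
  obtain ⟨e, he1, he2⟩ := split_inter (k + 1) _ _ h4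
  refine ⟨e, ?_⟩
  refine SCmap_injective k (inclC inter_subset_left : C((A ∩ B : Set X), A))
    (inclC_injective _) ?_
  rw [← bd_SCmap, ← he1, map_sub, bd_bd, sub_zero, h2]

theorem mvRel_total (A B : Set X) (hA : IsOpen A) (hB : IsOpen B) (hAB : A ∪ B = univ) (k : ℕ)
    (z : SC (k + 1) X) (hz : bd k X z = 0) : ∃ c, bdd _ k c = 0 ∧ MVRel A B k z c := by
  obtain ⟨a, b, y, h1⟩ := small_cycle hA hB hAB k z hz
  have h2 : SCmap k (valC A) (bd k A a) = SCmap k (valC B) (-(bd k B b)) := by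
    have h3 := hz
    rw [h1, map_add, map_add, bd_bd, add_zero, bd_SCmap, bd_SCmap] at h3
    rw [map_neg]
    exact eq_neg_of_add_eq_zero_left h3
  obtain ⟨c, hc1, hc2⟩ := split_inter k _ _ h2
  refine ⟨c, ?_, a, b, y, h1, hc1, ?_⟩
  · cases k with
    | zero => rfl
    | succ k =>
      change bd k _ c = 0
      refine SCmap_injective k (inclC inter_subset_left : C((A ∩ B : Set X), A))
        (inclC_injective _) ?_
      rw [map_zero, ← bd_SCmap, ← hc1, bd_bd]
  · rw [← hc2, neg_neg]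

theorem cls_sub (k : ℕ) (X : Type) [TopologicalSpace X] (z w : Zc k X) :
    cls k X (z - w) = cls k X z - cls k X w := LinearMap.map_sub (cls k X) z w

theorem mv_exists (A B : Set X) (hA : IsOpen A) (hB : IsOpen B) (hAB : A ∪ B = univ) (k : ℕ) :
    ∃ δ : Hl (k + 1) X →ₗ[ℂ] Hl k (A ∩ B : Set X),
      ∀ (z : Zc (k + 1) X) (c : Zc k (A ∩ B : Set X)), MVRel A B k z c →
        δ (cls (k + 1) X z) = cls k _ c := by
  have hex : ∀ α : Hl (k + 1) X, ∃ (z : Zc (k + 1) X) (c : Zc k (A ∩ B : Set X)),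
      cls (k + 1) X z = α ∧ MVRel A B k z c := by
    intro α
    obtain ⟨z, hz⟩ := cls_surjective (k + 1) X α
    obtain ⟨c, hc, hzc⟩ := mvRel_total A B hA hB hAB k z z.2
    exact ⟨z, ⟨c, hc⟩, hz, hzc⟩
  choose Z C hZ hZC using hex
  have key : ∀ (z : Zc (k + 1) X) (c : Zc k (A ∩ B : Set X)), MVRel A B k z c →
      cls k _ (C (cls (k + 1) X z)) = cls k _ c := by
    intro z c hzc
    have h1 : cls (k + 1) X (Z (cls (k + 1) X z) - z) = 0 := by
      rw [cls_sub, hZ, sub_self]
    obtain ⟨y₀, hy₀⟩ := (cls_eq_zero_iff (k + 1) X _).mp h1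
    have h2 : MVRel A B k (bd (k + 1) X y₀)
        ((C (cls (k + 1) X z) : SC k (A ∩ B : Set X)) - (c : SC k (A ∩ B : Set X))) := by
      rw [hy₀]
      exact (hZC _).sub hzc
    obtain ⟨e, he⟩ := mvRel_boundary A B hA hB hAB k y₀ _ h2
    have h3 : cls k (A ∩ B : Set X) (C (cls (k + 1) X z) - c) = 0 :=
      (cls_eq_zero_iff k _ _).mpr ⟨e, he⟩
    rw [cls_sub] at h3
    exact sub_eq_zero.mp h3
  refine ⟨{ toFun := fun α => cls k _ (C α), map_add' := fun α β => ?_,
            map_smul' := fun r α => ?_ }, key⟩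
  · have h1 := key (Z α + Z β) (C α + C β) ((hZC α).add (hZC β))
    rw [map_add, hZ, hZ, map_add] at h1
    exact h1
  · have h1 := key (r • Z α) (r • C α) ((hZC α).smul r)
    rw [map_smul, hZ, map_smul] at h1
    exact h1

/-- the Mayer–Vietoris boundary map `H_{k+1}(X) → H_k(A ∩ B)` -/
noncomputable def mvδ {A B : Set X} (hA : IsOpen A) (hB : IsOpen B) (hAB : A ∪ B = univ) (k : ℕ) :
    Hl (k + 1) X →ₗ[ℂ] Hl k (A ∩ B : Set X) := Classical.choose (mv_exists A B hA hB hAB k)

end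

end Pool.Agent.HZ
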