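import Pool.Agent.Lib.MP_3c7f5c_ag.Hom.Sd1

/-!
# Homology toolkit, module HZ-Sd2: subdivision of singular chains is a chain map, chain homotopy
-/

open Set

namespace Pool.Agent.HZ

theorem sd2_comb_vert {n m : ℕ} (w : Fin (n + 1) → Dx m) : comb w ∘ vert n = w := by
  funext k
  apply Subtype.ext
  funext j
  change ∑ i, (Pi.single k (1 : ℝ) : Fin (n + 1) → ℝ) i * w i j = w k j
  simp [Pi.single_apply]

theorem sd2_realL_mapL {n m m' : ℕ} (w : Fin (m + 1) → Dx m') (c : LC n m) :
    realL n m' (mapL w n c) = SCmap n (aff w) (realL n m c) := by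
  refine lin1_ext ((realL n m').comp (mapL w n)) ((SCmap n (aff w)).comp (realL n m))
    (fun v => ?_) c
  rw [LinearMap.comp_apply, LinearMap.comp_apply, lin2_mapL_single, sd1_realL_single,
    sd1_realL_single, SCmap_single]
  congr 1
  apply ContinuousMap.ext
  intro t
  exact (lin2_comb_comb w v t).symm

section
variable (n : ℕ) (X : Type) [TopologicalSpace X] {Y : Type} [TopologicalSpace Y]

variable {X} in
/-- subdivision of the image of a linear chain -/
theorem sd2_SdX_real {m : ℕ} (σ : C(Dx m, X)) (c : LC n m) :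
    SCmap n σ (realL n m (SdL m n c)) = SdX n X (SCmap n σ (realL n m c)) := by
  refine lin1_ext ((SCmap n σ).comp ((realL n m).comp (SdL m n)))
    ((SdX n X).comp ((SCmap n σ).comp (realL n m))) (fun w => ?_) c
  simp only [LinearMap.comp_apply]
  have e : (Finsupp.single w 1 : LC n m) = mapL w n (Finsupp.single (vert n) 1) := by
    rw [lin2_mapL_single, sd2_comb_vert]
  rw [sd1_realL_single, SCmap_single, sd1_SdX_single, e, ← mapL_SdL, sd2_realL_mapL, SCmap_comp]

variable {X} in
/-- the homotopy on the image of a linear chain -/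
theorem sd2_ThX_real {m : ℕ} (σ : C(Dx m, X)) (c : LC n m) :
    SCmap (n + 1) σ (realL (n + 1) m (ThL m n c)) = ThX n X (SCmap n σ (realL n m c)) := by
  refine lin1_ext ((SCmap (n + 1) σ).comp ((realL (n + 1) m).comp (ThL m n)))
    ((ThX n X).comp ((SCmap n σ).comp (realL n m))) (fun w => ?_) c
  simp only [LinearMap.comp_apply]
  have e : (Finsupp.single w 1 : LC n m) = mapL w n (Finsupp.single (vert n) 1) := by
    rw [lin2_mapL_single, sd2_comb_vert]
  rw [sd1_realL_single, SCmap_single, sd1_ThX_single, e, ← mapL_ThL, sd2_realL_mapL, SCmap_comp]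

theorem bd_SdX (c : SC (n + 1) X) : bd n X (SdX (n + 1) X c) = SdX n X (bd n X c) := by
  refine lin1_ext ((bd n X).comp (SdX (n + 1) X)) ((SdX n X).comp (bd n X)) (fun σ => ?_) c
  rw [LinearMap.comp_apply, LinearMap.comp_apply, ← sd1_SCmap_vert (n + 1) σ 1, ← sd2_SdX_real,
    bd_SCmap, sd1_bd_realL, bdL_SdL, sd2_SdX_real, bd_SCmap, sd1_bd_realL]

theorem bd_ThX_succ (c : SC (n + 1) X) :
    bd (n + 1) X (ThX (n + 1) X c) + ThX n X (bd n X c) = c - SdX (n + 1) X c := by
  refine lin1_ext ((bd (n + 1) X).comp (ThX (n + 1) X) + (ThX n X).comp (bd n X))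
    (LinearMap.id - SdX (n + 1) X) (fun σ => ?_) c
  rw [LinearMap.add_apply, LinearMap.comp_apply, LinearMap.comp_apply, LinearMap.sub_apply,
    LinearMap.id_apply, ← sd1_SCmap_vert (n + 1) σ 1, ← sd2_ThX_real, bd_SCmap, bd_SCmap,
    sd1_bd_realL, sd1_bd_realL, ← sd2_ThX_real, ← sd2_SdX_real, ← map_add, ← map_add,
    bdL_ThL_succ, map_sub, map_sub]
end

end Pool.Agent.HZ
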